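import Pool.Agent.helper40.Sq.Drift

set_option autoImplicit false

/-!
# SQ-Arcs: the two arcs of the egg of `y^2 = x (x^2 + a x + b)`, `b < 0`

`no_left`: on the arc `x ≤ -δ`: `τ = y / x =: s`. From `y^2 = x (x^2 + a x + b) ≥ 0`, `x < 0`:
`x^2 + a x + b ≤ 0`, so `|x| ≤ |a| + |b| + 1`; `s^2 = x + a + b / x`, bounded by `|a| + |b| / δ`.
For two points and a slope `l` as in `no_drift` (model: `slope_rel`, `num_bd` in
`helper59/Tw/Arc.lean`): `l (s' - s) = x + x' + a - s s'`, and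
`x + x' + a - s s' = (s - s')^2 / 2 + (x + x') / 2 - (b / x + b / x') / 2 ≤ -δ + (s - s')^2 / 2`
(`b / x > 0`). So `κ = δ` and `K` a common bound for everything (`|x + x' + a - s s'|`, `|x|`,
`|y| = |s x|`, `|s|`, and `1 / 2`).

`no_right`: on the arc `-δ ≤ x < 0`, with `q(x) := x^2 + a x + b < 0` at `x = -δ` (so `q < 0` on
`[-δ, 0]`, by convexity: `q(0) = b < 0`; explicitly `q(x) ≤ -c0` with `c0 = min (-b) (-q(-δ)) > 0`:
`x = -θ δ`, `0 ≤ θ ≤ 1`, `q(x) ≤ θ q(-δ) + (1 - θ) q(0)`). Here `y^2 = x q(x) > 0`, `y ≠ 0`; put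
`σ = x / y` and `τ = -σ`. `σ^2 = x / q(x)`, so `σ^2 ≤ δ / c0`; `y^2 = x q(x)` is bounded.
For two points and `l` as in `no_drift`: `l (τ' - τ) = l (σ - σ') = σ σ' (x + x' + a) - 1`
(from `l (s' - s) = x + x' + a - s s'` with `s = 1 / σ`, or directly: multiply by `y y'`).
Since `1 = σ^2 (x + a) + b / q(x)` and the same for `x'`, and `2 σ σ' = σ^2 + σ'^2 - (σ - σ')^2`:
`σ σ' (x + x' + a) - 1 = -(b/q + b/q') / 2 + (x' σ^2 + x σ'^2) / 2 - (x + x' + a) (σ - σ')^2 / 2`
`≤ -κ + K (σ - σ')^2` with `κ = |b| / (δ^2 + |a| δ + |b|)` (as `0 < -q ≤ δ^2 + |a| δ + |b|`, and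
`x, x' < 0`), `K ≥ (2 δ + |a|) / 2`.
-/

namespace H40.Sq

open WeierstrassCurve WeierstrassCurve.Affine H48.CN

/-- the relation between the slope and the difference of the coordinates `s = y / x` -/
private theorem slope_rel' {a b l x y x' y' : ℚ} (hx : x ≠ 0) (hx' : x' ≠ 0)
    (e : y ^ 2 = x ^ 3 + a * x ^ 2 + b * x + 0)
    (r1 : l * (x' - x) = y' + y)
    (r2 : l * (y' - y) = x' ^ 2 + x' * x + x ^ 2 + a * (x' + x) + b) :
    l * (y' / x' - y / x) = x + x' + a - y / x * (y' / x') := by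
  obtain ⟨s, rfl⟩ : ∃ s, y = s * x := ⟨y / x, by field_simp⟩
  obtain ⟨s', rfl⟩ : ∃ s', y' = s' * x' := ⟨y' / x', by field_simp⟩
  rw [mul_div_cancel_right₀ _ hx, mul_div_cancel_right₀ _ hx']
  have h : s ^ 2 * x = x ^ 2 + a * x + b := by
    apply mul_right_cancel₀ hx
    linear_combination e
  apply mul_right_cancel₀ hx'
  linear_combination r2 - s * r1 - h

private theorem left_bd {a b δ : ℚ} (hb : b < 0) (hδ : 0 < δ) {x y : ℚ}
    (e : y ^ 2 = x ^ 3 + a * x ^ 2 + b * x + 0) (hx : x ≤ -δ) :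
    |x| ≤ |a| + |b| + 1 ∧ (y / x) ^ 2 = x + a + b / x ∧ 0 < b / x ∧
      |y / x| ≤ |a| + |b| / δ + 1 := by
  have hx0 : x < 0 := by linarith
  have hxne : x ≠ 0 := hx0.ne
  have hq : x ^ 2 + a * x + b ≤ 0 := by
    by_contra h
    push Not at h
    have h2 : x * (x ^ 2 + a * x + b) < 0 := mul_neg_of_neg_of_pos hx0 h
    nlinarith [sq_nonneg y]
  have h2 : (y / x) ^ 2 = x + a + b / x := by
    rw [div_pow, e]
    field_simp
    ring
  have h3 : 0 < b / x := div_pos_of_neg_of_neg hb hx0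
  have h4 : b / x ≤ |b| / δ := by
    rw [abs_of_neg hb, ← neg_div_neg_eq]
    exact div_le_div_of_nonneg_left (by linarith) hδ (by linarith)
  have ha := le_abs_self a
  have ha0 := abs_nonneg a
  have hb0 := abs_nonneg b
  refine ⟨?_, h2, h3, ?_⟩
  · by_contra h
    push Not at h
    have hxa : x = -|x| := by rw [abs_of_neg hx0]; ring
    have hx1 : 1 < |x| := by linarith
    have k1 : a * x ≥ -(|a| * |x|) := by
      have := neg_abs_le (a * x)
      rw [abs_mul] at this
      exact this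
    have k2 : x ^ 2 = |x| * |x| := by rw [← sq, sq_abs]
    have k3 : -|b| ≤ b := neg_abs_le b
    have k4 : (|a| + |b| + 1) * |x| < |x| * |x| := mul_lt_mul_of_pos_right h (by linarith)
    have k5 : |b| * 1 ≤ |b| * |x| := mul_le_mul_of_nonneg_left hx1.le hb0
    nlinarith
  · have hbδ : 0 ≤ |b| / δ := by positivity
    apply abs_le_of_sq_le_sq _ (by linarith)
    rw [h2]
    nlinarith

theorem no_left {a b δ : ℚ} (hb : b < 0) (hδ : 0 < δ) (P Q : (Wc a b 0).Point)
    (hQ : ∀ k : ℕ, 0 < k → k • Q ≠ 0)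
    (H : ∀ k : ℕ, ∃ (x y : ℚ) (h : (Wc a b 0).Nonsingular x y),
      P + k • Q = Point.some x y h ∧ x ≤ -δ) : False := by
  choose x y h hP hx using H
  have he := fun k => eqn_iff.1 (h k).1
  have hbd := fun k => left_bd hb hδ (he k) (hx k)
  set M : ℚ := |a| + |b| + 1 with hM
  set S : ℚ := |a| + |b| / δ + 1 with hS
  have ha0 := abs_nonneg a
  have hb0 := abs_nonneg b
  have hM0 : 0 < M := by positivity
  have hS0 : 0 < S := by positivity
  have hSM : 0 < S * M := by positivity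
  have hS2 : 0 < S ^ 2 := by positivity
  set K : ℚ := M + S + S * M + (2 * M + |a| + S ^ 2) + 1 with hK
  refine no_drift (K := K) hδ P Q hQ x y (fun k => y k / x k) h hP (fun k => ?_) (fun k => ?_)
    (fun k => ?_) (fun i j l r1 r2 => ?_)
  · have := (hbd k).1
    linarith
  · have hxne : x k ≠ 0 := by
      have := hx k
      linarith
    have h1 : |y k| = |y k / x k| * |x k| := by
      rw [← abs_mul, div_mul_cancel₀ _ hxne]
    have h2 : |y k / x k| * |x k| ≤ S * M :=
      mul_le_mul (hbd k).2.2.2 (hbd k).1 (abs_nonneg _) hS0.le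
    rw [h1]
    linarith
  · have := (hbd k).2.2.2
    change |y k / x k| ≤ K
    linarith
  · have hxi := hx i
    have hxj := hx j
    have e1 := slope_rel' (by linarith : x i ≠ 0) (by linarith : x j ≠ 0) (he i) r1 r2
    obtain ⟨a1, a2, a3, a4⟩ := hbd i
    obtain ⟨b1, b2, b3, b4⟩ := hbd j
    change l * (y j / x j - y i / x i) ≤ -δ + K * (y j / x j - y i / x i) ^ 2 ∧
      |l * (y j / x j - y i / x i)| ≤ K
    rw [e1]
    set s := y i / x i with hs
    set s' := y j / x j with hs'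
    constructor
    · have k1 : x i + x j + a - s * s' = (s' - s) ^ 2 / 2 + (x i + x j) / 2 -
          (b / x i + b / x j) / 2 := by
        linear_combination (-1 / 2) * a2 + (-1 / 2) * b2
      have k2 : (1 / 2) * (s' - s) ^ 2 ≤ K * (s' - s) ^ 2 :=
        mul_le_mul_of_nonneg_right (by linarith) (sq_nonneg _)
      rw [k1]
      linarith
    · have k1 : |s * s'| ≤ S ^ 2 := by
        rw [abs_mul, sq]; exact mul_le_mul a4 b4 (abs_nonneg _) hS0.le
      rw [abs_le] at k1 a1 b1 ⊢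
      have k2 := le_abs_self a
      have k3 := neg_abs_le a
      constructor <;> linarith [k1.1, k1.2, a1.1, a1.2, b1.1, b1.2]

private theorem right_bd {a b δ c0 : ℚ} (hδ : 0 < δ) (hc0 : 0 < c0)
    (h1 : c0 ≤ -b) (h2 : c0 ≤ -(δ ^ 2 - a * δ + b)) {x y : ℚ}
    (e : y ^ 2 = x ^ 3 + a * x ^ 2 + b * x + 0) (hx : -δ ≤ x) (hx' : x < 0) :
    ∃ q, q = x ^ 2 + a * x + b ∧ q ≤ -c0 ∧ -(δ ^ 2 + |a| * δ + |b|) ≤ q ∧ y ≠ 0 ∧
      (x / y) ^ 2 = x / q ∧ |x / y| ≤ δ / c0 + 1 ∧ |y| ≤ δ * (δ ^ 2 + |a| * δ + |b|) + 1 := by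
  have ha0 := abs_nonneg a
  have hb0 := abs_nonneg b
  have hq : x ^ 2 + a * x + b ≤ -c0 := by
    have k1 : δ * (x ^ 2 + a * x + b) ≤ δ * (-c0) := by
      have k2 : 0 ≤ -x * δ * (δ + x) :=
        mul_nonneg (mul_nonneg (by linarith) hδ.le) (by linarith)
      have k3 : -x * (δ ^ 2 - a * δ + b) ≤ -x * (-c0) :=
        mul_le_mul_of_nonneg_left (by linarith) (by linarith)
      have k4 : (δ + x) * b ≤ (δ + x) * (-c0) :=
        mul_le_mul_of_nonneg_left (by linarith) (by linarith)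
      nlinarith
    exact le_of_mul_le_mul_left k1 hδ
  have hq' : -(δ ^ 2 + |a| * δ + |b|) ≤ x ^ 2 + a * x + b := by
    have k1 : -(|a| * |x|) ≤ a * x := by
      have := neg_abs_le (a * x)
      rw [abs_mul] at this
      exact this
    have k2 : |x| ≤ δ := by rw [abs_le]; constructor <;> linarith
    have k3 : |a| * |x| ≤ |a| * δ := mul_le_mul_of_nonneg_left k2 ha0
    have k4 := neg_abs_le b
    nlinarith [sq_nonneg x, sq_nonneg δ]
  obtain ⟨q, hqd⟩ : ∃ q, q = x ^ 2 + a * x + b := ⟨_, rfl⟩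
  rw [← hqd] at hq hq'
  have hy2 : y ^ 2 = x * q := by rw [e, hqd]; ring
  have hq0 : q < 0 := by linarith
  have hpos : 0 < x * q := mul_pos_of_neg_of_neg hx' hq0
  have hy : y ≠ 0 := by
    rintro rfl
    rw [← hy2] at hpos
    norm_num at hpos
  have hσ : (x / y) ^ 2 = x / q := by
    rw [div_pow, hy2]
    have hxne := hx'.ne
    have hqne := hq0.ne
    field_simp
  refine ⟨q, hqd, hq, hq', hy, hσ, ?_, ?_⟩
  · have k1 : x / q ≤ δ / c0 := by
      rw [← neg_div_neg_eq]
      exact div_le_div₀ hδ.le (by linarith) hc0 (by linarith)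
    have k2 : 0 < δ / c0 := by positivity
    apply abs_le_of_sq_le_sq _ (by linarith)
    rw [hσ]
    nlinarith
  · have k1 : x * q ≤ δ * (δ ^ 2 + |a| * δ + |b|) := by
      rw [← neg_mul_neg]
      exact mul_le_mul (by linarith) (by linarith) (by linarith) hδ.le
    have k2 : 0 ≤ δ * (δ ^ 2 + |a| * δ + |b|) := by positivity
    apply abs_le_of_sq_le_sq _ (by linarith)
    rw [hy2]
    nlinarith

theorem no_right {a b δ : ℚ} (hb : b < 0) (hδ : 0 < δ) (hq : δ ^ 2 - a * δ + b < 0)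
    (P Q : (Wc a b 0).Point) (hQ : ∀ k : ℕ, 0 < k → k • Q ≠ 0)
    (H : ∀ k : ℕ, ∃ (x y : ℚ) (h : (Wc a b 0).Nonsingular x y),
      P + k • Q = Point.some x y h ∧ -δ ≤ x ∧ x < 0) : False := by
  choose x y h hP hx using H
  have he := fun k => eqn_iff.1 (h k).1
  obtain ⟨c0, hc0, hc1, hc2⟩ : ∃ c0 : ℚ, 0 < c0 ∧ c0 ≤ -b ∧ c0 ≤ -(δ ^ 2 - a * δ + b) :=
    ⟨min (-b) (-(δ ^ 2 - a * δ + b)), lt_min (by linarith) (by linarith), min_le_left _ _,
      min_le_right _ _⟩
  have hbd := fun k => right_bd hδ hc0 hc1 hc2 (he k) (hx k).1 (hx k).2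
  choose q hq0 hq1 hq2 hy hσ hσb hyb using hbd
  have ha0 := abs_nonneg a
  have hb0 : 0 < |b| := abs_pos.2 hb.ne
  set B : ℚ := δ ^ 2 + |a| * δ + |b| with hB
  have hB0 : 0 < B := by positivity
  set S : ℚ := δ / c0 + 1 with hS
  have hS0 : 0 < S := by positivity
  have hδB : 0 < δ * B := by positivity
  set K : ℚ := δ + (δ * B + 1) + S + (S ^ 2 * (2 * δ + |a|) + 1) + (2 * δ + |a|) with hK
  have hK1 : 0 ≤ S ^ 2 * (2 * δ + |a|) := by positivity
  have hκ : 0 < |b| / B := by positivity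
  refine no_drift (K := K) hκ P Q hQ x y (fun k => -(x k / y k)) h hP (fun k => ?_)
    (fun k => ?_) (fun k => ?_) (fun i j l r1 r2 => ?_)
  · have h1 := hx k
    rw [abs_le]
    constructor <;> linarith [h1.1, h1.2]
  · have := hyb k
    linarith
  · have := hσb k
    change |-(x k / y k)| ≤ K
    rw [abs_neg]
    linarith
  · have hxi := hx i
    have hxj := hx j
    have hxi0 : x i ≠ 0 := hxi.2.ne
    have hxj0 : x j ≠ 0 := hxj.2.ne
    have e1 := slope_rel' hxi0 hxj0 (he i) r1 r2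
    have e2 : l * (-(x j / y j) - -(x i / y i)) =
        x i / y i * (x j / y j) * (x i + x j + a) - 1 := by
      have hyi := hy i
      have hyj := hy j
      have f1 : y i / x i * (x i / y i) = 1 := by field_simp
      have f2 : y j / x j * (x j / y j) = 1 := by field_simp
      linear_combination (x i / y i * (x j / y j)) * e1 +
        (l * (x j / y j) - x j / y j * (y j / x j)) * f1 - (l * (x i / y i) + 1) * f2
    change l * (-(x j / y j) - -(x i / y i)) ≤
      -(|b| / B) + K * (-(x j / y j) - -(x i / y i)) ^ 2 ∧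
      |l * (-(x j / y j) - -(x i / y i))| ≤ K
    rw [e2]
    have g1 := hσ i
    have g2 := hσ j
    have g3 := hσb i
    have g4 := hσb j
    set s := x i / y i with hs
    set s' := x j / y j with hs'
    have k2 := le_abs_self a
    have k3 := neg_abs_le a
    constructor
    · have p1 : s ^ 2 * (x i + a) = 1 - b / q i := by
        have hqi : q i ≠ 0 := by have := hq1 i; linarith
        rw [g1, div_mul_eq_mul_div, eq_sub_iff_add_eq, ← add_div, div_eq_one_iff_eq hqi, hq0 i]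
        ring
      have p2 : s' ^ 2 * (x j + a) = 1 - b / q j := by
        have hqj : q j ≠ 0 := by have := hq1 j; linarith
        rw [g2, div_mul_eq_mul_div, eq_sub_iff_add_eq, ← add_div, div_eq_one_iff_eq hqj, hq0 j]
        ring
      have m1 : |b| / B ≤ b / q i := by
        rw [abs_of_neg hb, ← neg_div_neg_eq b (q i)]
        have := hq1 i
        have := hq2 i
        exact div_le_div_of_nonneg_left (by linarith) (by linarith) (by linarith)
      have m2 : |b| / B ≤ b / q j := by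
        rw [abs_of_neg hb, ← neg_div_neg_eq b (q j)]
        have := hq1 j
        have := hq2 j
        exact div_le_div_of_nonneg_left (by linarith) (by linarith) (by linarith)
      have p3 : s * s' * (x i + x j + a) - 1 = -(b / q i + b / q j) / 2 +
          (x j * s ^ 2 + x i * s' ^ 2) / 2 - (x i + x j + a) * (-s' - -s) ^ 2 / 2 := by
        linear_combination (1 / 2) * p1 + (1 / 2) * p2
      have p4 : x j * s ^ 2 ≤ 0 := mul_nonpos_of_nonpos_of_nonneg hxj.2.le (sq_nonneg _)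
      have p5 : x i * s' ^ 2 ≤ 0 := mul_nonpos_of_nonpos_of_nonneg hxi.2.le (sq_nonneg _)
      have p6 : -(x i + x j + a) / 2 * (-s' - -s) ^ 2 ≤ K * (-s' - -s) ^ 2 :=
        mul_le_mul_of_nonneg_right (by linarith [hxi.1, hxj.1]) (sq_nonneg _)
      rw [p3]
      linarith
    · have k1 : |s * s'| ≤ S ^ 2 := by
        rw [abs_mul, sq]; exact mul_le_mul g3 g4 (abs_nonneg _) hS0.le
      have k4 : |x i + x j + a| ≤ 2 * δ + |a| := by
        rw [abs_le]
        constructor <;> linarith [hxi.1, hxj.1, hxi.2, hxj.2]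
      have k5 : |s * s' * (x i + x j + a)| ≤ S ^ 2 * (2 * δ + |a|) := by
        rw [abs_mul]
        exact mul_le_mul k1 k4 (abs_nonneg _) (by positivity)
      rw [abs_le] at k5 ⊢
      constructor <;> linarith [k5.1, k5.2]

end H40.Sq
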