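import Pool.Agent.helper79.Tw.Defs

set_option autoImplicit false

/-!
# Quadratic twists `N y^2 = x^3 + a x^2 + b x + c` and the height of the `x`-coordinate

The twist by `N` of `y^2 = x^3 + a x^2 + b x + c` is realised as the Weierstrass curve
`TG a b c N : Y^2 = X^3 + a N X^2 + b N^2 X + c N^3`; a solution `(x, y)` of
`N y^2 = x^3 + a x^2 + b x + c` gives the point `mk x y = (N x, N^2 y)`.
-/

namespace H40.Sq

open WeierstrassCurve WeierstrassCurve.Affine H48.CN H79.Tw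

/-- the discriminant of `x^3 + a x^2 + b x + c` -/
def dsc (a b c : ℚ) : ℚ := a ^ 2 * b ^ 2 - 4 * b ^ 3 - 4 * a ^ 3 * c - 27 * c ^ 2 + 18 * a * b * c

/-- The Weierstrass curve `Y^2 = X^3 + a N X^2 + b N^2 X + c N^3`. -/
abbrev TG (a b c N : ℚ) : WeierstrassCurve.Affine ℚ := Wc (a * N) (b * N ^ 2) (c * N ^ 3)

variable {a b c N : ℚ}

/-- a common zero of the cubic and its derivative is excluded by the discriminant -/
theorem dsc_eq_zero {x : ℚ} (h : x ^ 3 + a * x ^ 2 + b * x + c = 0)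
    (h' : 3 * x ^ 2 + 2 * a * x + b = 0) : dsc a b c = 0 := by
  unfold dsc
  linear_combination (18 * (b - a ^ 2 / 3) * (x + a / 3) -
      27 * (c - a * b / 3 + 2 * a ^ 3 / 27)) * h -
    (6 * (b - a ^ 2 / 3) * (x + a / 3) ^ 2 - 9 * (c - a * b / 3 + 2 * a ^ 3 / 27) * (x + a / 3) +
      4 * (b - a ^ 2 / 3) ^ 2) * h'

theorem nonsing (hE : dsc a b c ≠ 0) (hN : N ≠ 0) {x y : ℚ}
    (e : N * y ^ 2 = x ^ 3 + a * x ^ 2 + b * x + c) :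
    (TG a b c N).Nonsingular (N * x) (N ^ 2 * y) := by
  apply nonsing_of
  · linear_combination N ^ 3 * e
  · by_contra hcon
    push Not at hcon
    obtain ⟨h1, h2⟩ := hcon
    have hy : y = 0 := by
      rcases mul_eq_zero.1 h1 with h | h
      · norm_num at h
      · rcases mul_eq_zero.1 h with h | h
        · exact absurd (pow_eq_zero_iff two_ne_zero |>.1 h) hN
        · exact h
    have h3 : 3 * x ^ 2 + 2 * a * x + b = 0 := by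
      have : N ^ 2 * (3 * x ^ 2 + 2 * a * x + b) = 0 := by linear_combination h2
      rcases mul_eq_zero.1 this with h | h
      · exact absurd (pow_eq_zero_iff two_ne_zero |>.1 h) hN
      · exact h
    have h4 : x ^ 3 + a * x ^ 2 + b * x + c = 0 := by rw [← e, hy]; ring
    exact hE (dsc_eq_zero h4 h3)

/-- The point with normalised coordinates `(x, y)`. -/
noncomputable def mk (hE : dsc a b c ≠ 0) (hN : N ≠ 0) (x y : ℚ)
    (e : N * y ^ 2 = x ^ 3 + a * x ^ 2 + b * x + c) : (TG a b c N).Point :=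
  Point.some (N * x) (N ^ 2 * y) (nonsing hE hN e)

variable {hE : dsc a b c ≠ 0} {hN : N ≠ 0}

theorem hh_mk {x y : ℚ} (e : N * y ^ 2 = x ^ 3 + a * x ^ 2 + b * x + c) :
    hh N (mk hE hN x y e) = Height.logHeight₁ x := by
  unfold mk
  rw [hh_some, mul_div_cancel_left₀ _ hN]

theorem exists_mk (hE : dsc a b c ≠ 0) (hN : N ≠ 0) (P : (TG a b c N).Point) :
    P = 0 ∨ ∃ (x y : ℚ) (e : N * y ^ 2 = x ^ 3 + a * x ^ 2 + b * x + c), P = mk hE hN x y e := by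
  rcases P with _ | ⟨X, Y, h⟩
  · exact Or.inl rfl
  · right
    have e := eqn_iff.1 h.1
    have hN2 : N ^ 2 ≠ 0 := pow_ne_zero 2 hN
    have hx : N * (X / N) = X := by field_simp
    have hy : N ^ 2 * (Y / N ^ 2) = Y := by field_simp
    have hN3 : N ^ 3 ≠ 0 := pow_ne_zero 3 hN
    refine ⟨X / N, Y / N ^ 2, ?_, ?_⟩
    · apply mul_left_cancel₀ hN3
      calc N ^ 3 * (N * (Y / N ^ 2) ^ 2) = (N ^ 2 * (Y / N ^ 2)) ^ 2 := by ring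
        _ = Y ^ 2 := by rw [hy]
        _ = X ^ 3 + a * N * X ^ 2 + b * N ^ 2 * X + c * N ^ 3 := e
        _ = (N * (X / N)) ^ 3 + a * N * (N * (X / N)) ^ 2 + b * N ^ 2 * (N * (X / N)) +
            c * N ^ 3 := by
          rw [hx]
        _ = N ^ 3 * ((X / N) ^ 3 + a * (X / N) ^ 2 + b * (X / N) + c) := by ring
    · unfold mk
      simp only [hx, hy]

theorem mk_inj {x y x' y' : ℚ} {e : N * y ^ 2 = x ^ 3 + a * x ^ 2 + b * x + c}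
    {e' : N * y' ^ 2 = x' ^ 3 + a * x' ^ 2 + b * x' + c} :
    mk hE hN x y e = mk hE hN x' y' e' ↔ x = x' ∧ y = y' := by
  unfold mk
  rw [Point.some.injEq]
  constructor
  · rintro ⟨h1, h2⟩
    exact ⟨mul_left_cancel₀ hN h1, mul_left_cancel₀ (pow_ne_zero 2 hN) h2⟩
  · rintro ⟨rfl, rfl⟩
    exact ⟨rfl, rfl⟩

theorem mk_ne_zero {x y : ℚ} {e : N * y ^ 2 = x ^ 3 + a * x ^ 2 + b * x + c} :
    mk hE hN x y e ≠ 0 := by
  unfold mk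
  exact Point.some_ne_zero _

theorem neg_mk {x y : ℚ} (e : N * y ^ 2 = x ^ 3 + a * x ^ 2 + b * x + c) :
    -mk hE hN x y e = mk hE hN x (-y) (by rw [neg_sq]; exact e) := by
  unfold mk
  rw [Point.neg_some]
  congr 1
  rw [negY_eq]; ring

theorem mk_add_neg {x y y' : ℚ} (e : N * y ^ 2 = x ^ 3 + a * x ^ 2 + b * x + c)
    (e' : N * y' ^ 2 = x ^ 3 + a * x ^ 2 + b * x + c) (h : y = -y') :
    mk hE hN x y e + mk hE hN x y' e' = 0 := by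
  unfold mk
  exact Point.add_of_Y_eq rfl (by rw [negY_eq, h]; ring)

/-- The sum of two points which are not opposite. -/
theorem mk_add {x₁ y₁ x₂ y₂ : ℚ} (e₁ : N * y₁ ^ 2 = x₁ ^ 3 + a * x₁ ^ 2 + b * x₁ + c)
    (e₂ : N * y₂ ^ 2 = x₂ ^ 3 + a * x₂ ^ 2 + b * x₂ + c) (h : ¬(x₁ = x₂ ∧ y₁ = -y₂)) :
    ∃ (l x₃ y₃ : ℚ) (e₃ : N * y₃ ^ 2 = x₃ ^ 3 + a * x₃ ^ 2 + b * x₃ + c),
      mk hE hN x₁ y₁ e₁ + mk hE hN x₂ y₂ e₂ = mk hE hN x₃ y₃ e₃ ∧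
      l * (x₁ - x₂) = y₁ - y₂ ∧
      N * l * (y₁ + y₂) = x₁ ^ 2 + x₁ * x₂ + x₂ ^ 2 + a * (x₁ + x₂) + b ∧
      x₃ = N * l ^ 2 - a - x₁ - x₂ ∧ y₃ = -(y₁ + l * (x₃ - x₁)) := by
  have hN2 : N ^ 2 ≠ 0 := pow_ne_zero 2 hN
  have hN3 : N ^ 3 ≠ 0 := pow_ne_zero 3 hN
  have h' : ¬(N * x₁ = N * x₂ ∧ N ^ 2 * y₁ = -(N ^ 2 * y₂)) := by
    rintro ⟨h1, h2⟩
    apply h
    refine ⟨mul_left_cancel₀ hN h1, mul_left_cancel₀ hN2 ?_⟩
    rw [h2]; ring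
  obtain ⟨L, X, Y, hXY, hs, r1, r2, r3, r4⟩ := add_rel (nonsing hE hN e₁) (nonsing hE hN e₂) h'
  have hl : N * (L / N) = L := by field_simp
  obtain ⟨l, rfl⟩ : ∃ l, L = N * l := ⟨L / N, hl.symm⟩
  have hX : X = N * (N * l ^ 2 - a - x₁ - x₂) := by rw [r3]; ring
  have hY : Y = N ^ 2 * (-(y₁ + l * ((N * l ^ 2 - a - x₁ - x₂) - x₁))) := by
    rw [r4, hX]; ring
  subst hX
  subst hY
  have e3 : N * (-(y₁ + l * ((N * l ^ 2 - a - x₁ - x₂) - x₁))) ^ 2 =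
      (N * l ^ 2 - a - x₁ - x₂) ^ 3 + a * (N * l ^ 2 - a - x₁ - x₂) ^ 2 +
        b * (N * l ^ 2 - a - x₁ - x₂) + c := by
    have := eqn_iff.1 hXY.1
    apply mul_left_cancel₀ hN3
    linear_combination this
  refine ⟨l, _, _, e3, ?_, ?_, ?_, rfl, rfl⟩
  · exact hs
  · apply mul_left_cancel₀ hN2
    linear_combination r1
  · apply mul_left_cancel₀ hN2
    linear_combination r2

/-- The sum of two points with different `x`-coordinates. -/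
theorem mk_add_of_ne {x₁ y₁ x₂ y₂ : ℚ} (e₁ : N * y₁ ^ 2 = x₁ ^ 3 + a * x₁ ^ 2 + b * x₁ + c)
    (e₂ : N * y₂ ^ 2 = x₂ ^ 3 + a * x₂ ^ 2 + b * x₂ + c) (h : x₁ ≠ x₂) :
    ∃ (y₃ : ℚ) (e₃ : N * y₃ ^ 2 = (N * ((y₁ - y₂) / (x₁ - x₂)) ^ 2 - a - x₁ - x₂) ^ 3 +
        a * (N * ((y₁ - y₂) / (x₁ - x₂)) ^ 2 - a - x₁ - x₂) ^ 2 +
          b * (N * ((y₁ - y₂) / (x₁ - x₂)) ^ 2 - a - x₁ - x₂) + c),
      mk hE hN x₁ y₁ e₁ + mk hE hN x₂ y₂ e₂ =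
        mk hE hN (N * ((y₁ - y₂) / (x₁ - x₂)) ^ 2 - a - x₁ - x₂) y₃ e₃ := by
  obtain ⟨l, x₃, y₃, e₃, hs, r1, -, r3, -⟩ := mk_add (hE := hE) (hN := hN) e₁ e₂
    (fun hh => h hh.1)
  have hl : l = (y₁ - y₂) / (x₁ - x₂) := by
    rw [eq_div_iff (sub_ne_zero.2 h)]; exact r1
  subst hl
  subst r3
  exact ⟨y₃, e₃, hs⟩

/-- The height of a sum of two points with different `x`-coordinates. -/
theorem hh_add_of_ne {x₁ y₁ x₂ y₂ : ℚ} (e₁ : N * y₁ ^ 2 = x₁ ^ 3 + a * x₁ ^ 2 + b * x₁ + c)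
    (e₂ : N * y₂ ^ 2 = x₂ ^ 3 + a * x₂ ^ 2 + b * x₂ + c) (h : x₁ ≠ x₂) :
    hh N (mk hE hN x₁ y₁ e₁ + mk hE hN x₂ y₂ e₂) =
      Height.logHeight₁ (N * ((y₁ - y₂) / (x₁ - x₂)) ^ 2 - a - x₁ - x₂) := by
  obtain ⟨y₃, e₃, hs⟩ := mk_add_of_ne (hE := hE) (hN := hN) e₁ e₂ h
  rw [hs, hh_mk]

/-- The height of a difference of two points with different `x`-coordinates. -/
theorem hh_sub_of_ne {x₁ y₁ x₂ y₂ : ℚ} (e₁ : N * y₁ ^ 2 = x₁ ^ 3 + a * x₁ ^ 2 + b * x₁ + c)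
    (e₂ : N * y₂ ^ 2 = x₂ ^ 3 + a * x₂ ^ 2 + b * x₂ + c) (h : x₁ ≠ x₂) :
    hh N (mk hE hN x₁ y₁ e₁ - mk hE hN x₂ y₂ e₂) =
      Height.logHeight₁ (N * ((y₁ + y₂) / (x₁ - x₂)) ^ 2 - a - x₁ - x₂) := by
  rw [sub_eq_add_neg, neg_mk, hh_add_of_ne _ _ h, sub_neg_eq_add]

/-! ### The family -/

/-- the cubic with cyclic Galois group -/
def PA (A x : ℚ) : ℚ := x ^ 3 + -A * x ^ 2 + (A - 3) * x + 1

theorem dsc_PA (A : ℚ) : dsc (-A) (A - 3) 1 = (A ^ 2 - 3 * A + 9) ^ 2 := by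
  unfold dsc; ring

theorem dsc_PA_ne (A : ℚ) : dsc (-A) (A - 3) 1 ≠ 0 := by
  rw [dsc_PA]
  have : 0 < A ^ 2 - 3 * A + 9 := by nlinarith [sq_nonneg (A - 3 / 2)]
  positivity

/-- the quartic: discriminant of `(PA A X - PA A z) / (X - z)` at `z = 1 + v^2` -/
def QA (A v : ℚ) : ℚ := -3 * v ^ 4 + (2 * A - 6) * v ^ 2 + (A ^ 2 - 2 * A + 9)

/-- the first coordinate of the third point -/
def xx (A v w : ℚ) : ℚ := (A - 1 - v ^ 2 + w) / 2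

/-- `P3` and its conjugate are the other two points on the line through `P1` -/
theorem xx_rel {A v w : ℚ} (hw : w ^ 2 = QA A v) :
    xx A v w ^ 2 - (A - (1 + v ^ 2)) * xx A v w +
      ((1 + v ^ 2) ^ 2 - A * (1 + v ^ 2) + A - 3) = 0 := by
  unfold xx
  unfold QA at hw
  linear_combination hw / 4

/-- the point `P2` -/
theorem PA_inv {A v : ℚ} (hv : v ≠ 0) : PA A (-1 / v ^ 2) = PA A (1 + v ^ 2) / v ^ 6 := by
  unfold PA
  field_simp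
  ring

/-- the point `P3` -/
theorem PA_xx {A v w : ℚ} (hw : w ^ 2 = QA A v) : PA A (xx A v w) = PA A (1 + v ^ 2) := by
  have h := xx_rel hw
  unfold PA
  linear_combination (xx A v w - (1 + v ^ 2)) * h

variable {A t v w : ℚ}

theorem e1_of (hD : PA A (1 + v ^ 2) = N * t ^ 2) :
    N * t ^ 2 = (1 + v ^ 2) ^ 3 + -A * (1 + v ^ 2) ^ 2 + (A - 3) * (1 + v ^ 2) + 1 := by
  rw [← hD]; rfl

theorem e2_of (hv : v ≠ 0) (hD : PA A (1 + v ^ 2) = N * t ^ 2) :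
    N * (t / v ^ 3) ^ 2 = (-1 / v ^ 2) ^ 3 + -A * (-1 / v ^ 2) ^ 2 + (A - 3) * (-1 / v ^ 2) + 1 := by
  have h1 : N * (t / v ^ 3) ^ 2 = (N * t ^ 2) / v ^ 6 := by
    field_simp
  rw [h1, ← hD, ← PA_inv hv]; rfl

theorem e3_of (hw : w ^ 2 = QA A v) (hD : PA A (1 + v ^ 2) = N * t ^ 2) :
    N * t ^ 2 = xx A v w ^ 3 + -A * xx A v w ^ 2 + (A - 3) * xx A v w + 1 := by
  rw [← hD, ← PA_xx hw]; rfl

end H40.Sq
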