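import Pool.Agent.helper4.Tw.Common
import Pool.Agent.helper45.Tw.D
import Pool.Agent.helper25.Tw.K
import Pool.Agent.helper40.Sq.Defs

set_option autoImplicit false

/-!
# SQ-Base: the point `(-3, 3 A)` on `y^2 = x^3 + (2 A - 6) x^2 - 3 (A^2 - 2 A + 9) x`

`base_ns`: `A ≠ 0`, so `2 y ≠ 0`.
`base_inf`: let `A = p / q` in lowest terms, `q > 0`. First
`(*) 2 p` does not divide `M = p^2 - 2 p q + 12 q^2` in the integers: otherwise `p ∣ 12 q^2`, so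
`p ∣ 12` (coprime), and `2 p ∣ p^2 + 12 q^2`. If `p` is odd then `M` is odd. If `p` is even, `q` is odd,
and `p ∉ {0, ±2, ±6}` leaves `p = ±4` (`8 ∣ 16 + 12 q^2` is false for odd `q`) and `p = ±12`
(`24 ∣ 144 + 12 q^2` is false for odd `q`).
So `r = M / (2 p)` is not an integer and there is a prime `l` with `1 < pv l r` (a prime factor of the
denominator of `r`; `pv` of `H48.CN.Padic`; `pv l r * pv l r.den = pv l r.num = 1`).
Scaled curve: `A' = 2 p q - 6 q^2`, `B' = -3 q^2 (p^2 - 2 p q + 9 q^2)` (integers), by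
`H25.Tw.transport` with `k = q`, `r = 0` (injective homomorphism; see `H25.Tw.psi` for the explicit
map `(x, y) ↦ (q^2 x, q^3 y)`): the image of the base point is `(-3 q^2, 3 p q^2)`. Its double has
abscissa `r^2` (`H4.Tw.double_rel` with `l = (27 q^4 - 6 q^2 A' + B') / (6 p q^2)`), and
`1 < pv l (r^2)`: `Pool.Agent.helper45.Tw.inf_of_pv` (the coefficients are integers, so in `OO l`).
If `k • P = 0` then `k • (2 • P) = 0`.
(It may be simpler not to use `transport` but the fact that it gives `Function.Injective`; any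
homomorphism with `ψ P = (-3 q^2, 3 p q^2)` is enough: `k • ψ P = 0`.)
`base_odd`: `H4.Tw.odd_sq` with `e = 0`: `x * (-3) = r^2`, `r ≠ 0`, `v = r / 3`.
-/

namespace H40.Sq

open WeierstrassCurve WeierstrassCurve.Affine H48.CN

theorem base_ns {A : ℚ} (hA : A ≠ 0) :
    (Wc (2 * A - 6) (-3 * (A ^ 2 - 2 * A + 9)) 0).Nonsingular (-3) (3 * A) := by
  refine nonsing_of ?_ ?_
  · ring
  · left
    intro h
    apply hA
    linarith

private lemma not_dvd {p q : ℤ} (hpq : IsCoprime p q) (h0 : p ≠ 0) (h2 : p ≠ 2) (h2' : p ≠ -2)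
    (h6 : p ≠ 6) (h6' : p ≠ -6) : ¬ (2 * p ∣ p ^ 2 - 2 * p * q + 12 * q ^ 2) := by
  intro hd
  have hd1 : p ∣ 12 * q ^ 2 := by
    have e : 12 * q ^ 2 = (p ^ 2 - 2 * p * q + 12 * q ^ 2) - p * (p - 2 * q) := by ring
    rw [e]
    exact dvd_sub ((Dvd.intro_left 2 rfl).trans hd) (Dvd.intro _ rfl)
  have hd2 : p ∣ 12 := (hpq.pow_right (n := 2)).dvd_of_dvd_mul_right hd1
  have hle : p ≤ 12 := Int.le_of_dvd (by norm_num) hd2
  have hge : -12 ≤ p := by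
    have := Int.le_of_dvd (by norm_num) ((neg_dvd).2 hd2)
    linarith
  have hodd : ∀ k : ℤ, p = 2 * k → q % 2 = 1 := by
    intro k hk
    by_contra hcon
    have hq : 2 ∣ q := by omega
    have h2p : (2 : ℤ) ∣ p := ⟨k, hk⟩
    have hu : IsUnit (2 : ℤ) := hpq.isUnit_of_dvd' h2p hq
    rw [Int.isUnit_iff] at hu
    omega
  obtain ⟨c, hc⟩ := hd2
  obtain ⟨t, ht⟩ := hd
  have hsq : q % 2 = 1 → ∃ m : ℤ, q ^ 2 = 4 * m + 1 := by
    intro h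
    obtain ⟨s, hs⟩ : ∃ s : ℤ, q = 2 * s + 1 := ⟨q / 2, by omega⟩
    exact ⟨s ^ 2 + s, by rw [hs]; ring⟩
  by_cases hpar : p % 2 = 0
  · obtain ⟨m, hm⟩ := hsq (hodd (p / 2) (by omega))
    rw [hm] at ht
    interval_cases p <;> omega
  · generalize q ^ 2 = z at ht
    interval_cases p <;> omega

private lemma exists_pv {r : ℚ} (hr : r.den ≠ 1) :
    ∃ (l : ℕ) (_ : Fact l.Prime), 1 < pv l r := by
  set l := r.den.minFac with hl
  have hlp : l.Prime := Nat.minFac_prime hr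
  have : Fact l.Prime := ⟨hlp⟩
  refine ⟨l, inferInstance, ?_⟩
  have hd : l ∣ r.den := Nat.minFac_dvd _
  have h1 : pv l (r.den : ℚ) < 1 := H4.Tw.pv_nat_lt hd
  have h2 : pv l (r.num : ℚ) = 1 := by
    unfold pv
    rw [Rat.cast_intCast]
    by_contra hne
    have hlt : ‖((r.num : ℤ) : ℚ_[l])‖ < 1 := lt_of_le_of_ne (Padic.norm_int_le_one _) hne
    rw [Padic.norm_intCast_lt_one_iff] at hlt
    have hn : l ∣ r.num.natAbs := Int.natCast_dvd.1 hlt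
    have hco := r.reduced
    exact Nat.not_coprime_of_dvd_of_dvd hlp.one_lt hn hd hco
  have h3 : pv l r * pv l (r.den : ℚ) = 1 := by
    rw [← pv_mul, Rat.mul_den_eq_num, h2]
  have h4 := pv_nonneg l r
  have h5 := pv_nonneg l (r.den : ℚ)
  by_contra hcon
  push Not at hcon
  nlinarith

theorem base_inf {A : ℚ} (hA : A ≠ 0) (h2 : A.num ≠ 2) (h2' : A.num ≠ -2) (h6 : A.num ≠ 6)
    (h6' : A.num ≠ -6) (k : ℕ) (hk : 0 < k) :
    k • (Point.some (-3) (3 * A) (base_ns hA) :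
      (Wc (2 * A - 6) (-3 * (A ^ 2 - 2 * A + 9)) 0).Point) ≠ 0 := by
  intro h0
  obtain ⟨p, hp⟩ : ∃ p : ℤ, p = A.num := ⟨_, rfl⟩
  obtain ⟨q, hq⟩ : ∃ q : ℤ, q = (A.den : ℤ) := ⟨_, rfl⟩
  have hq0 : (q : ℚ) ≠ 0 := by
    rw [hq]; exact_mod_cast A.den_ne_zero
  have hp0 : p ≠ 0 := by
    rw [hp]; exact Rat.num_ne_zero.2 hA
  have hp0' : (p : ℚ) ≠ 0 := by exact_mod_cast hp0
  have hAq : A * q = p := by
    rw [hq, hp]
    exact_mod_cast Rat.mul_den_eq_num A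
  have hco : IsCoprime p q := by
    rw [hp, hq]
    exact Rat.isCoprime_num_den A
  rw [← hp] at h2 h2' h6 h6'
  have hnd := not_dvd hco hp0 h2 h2' h6 h6'
  obtain ⟨r, hr⟩ : ∃ r : ℚ, r * (2 * p) = p ^ 2 - 2 * p * q + 12 * q ^ 2 :=
    ⟨(p ^ 2 - 2 * p * q + 12 * q ^ 2) / (2 * p), by field_simp⟩
  have hrd : r.den ≠ 1 := by
    intro h1
    apply hnd
    have h3 : (r.num : ℚ) = r := (Rat.den_eq_one_iff r).1 h1
    refine ⟨r.num, ?_⟩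
    have : ((p ^ 2 - 2 * p * q + 12 * q ^ 2 : ℤ) : ℚ) = ((2 * p * r.num : ℤ) : ℚ) := by
      push_cast
      rw [h3]
      linear_combination -hr
    exact_mod_cast this
  obtain ⟨l, hl, hlr⟩ := exists_pv hrd
  have hA' : ((2 * p * q - 6 * q ^ 2 : ℤ) : ℚ) = (2 * A - 6) * (q : ℚ) ^ 2 - 3 * 0 := by
    push_cast
    linear_combination -2 * (q : ℚ) * hAq
  have hB' : ((-3 * q ^ 2 * (p ^ 2 - 2 * p * q + 9 * q ^ 2) : ℤ) : ℚ) =
      (-3 * (A ^ 2 - 2 * A + 9)) * (q : ℚ) ^ 4 - 2 * 0 * (2 * A - 6) * (q : ℚ) ^ 2 + 3 * 0 ^ 2 := by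
    push_cast
    linear_combination (3 * (q : ℚ) ^ 2 * (A * q + p) - 6 * (q : ℚ) ^ 3) * hAq
  have hC' : ((0 : ℤ) : ℚ) = 0 * (q : ℚ) ^ 6 - (-3 * (A ^ 2 - 2 * A + 9)) * (q : ℚ) ^ 4 * 0 +
      (2 * A - 6) * (q : ℚ) ^ 2 * 0 ^ 2 - 0 ^ 3 := by
    push_cast
    ring
  let ψ := AddMonoidHom.mk' (H25.Tw.psi hq0 hA' hB' hC') (H25.Tw.psi_add hq0 hA' hB' hC')
  have hψ : ψ (Point.some (-3) (3 * A) (base_ns hA)) =
      Point.some _ _ (H25.Tw.nonsing_map hq0 hA' hB' hC' (base_ns hA)) := rfl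
  have hy : (q : ℚ) ^ 3 * (3 * A) ≠ 0 := by
    have : (3 : ℚ) * A ≠ 0 := mul_ne_zero (by norm_num) hA
    exact mul_ne_zero (pow_ne_zero 3 hq0) this
  obtain ⟨L, hL⟩ : ∃ L : ℚ, L * (2 * p) = -(p ^ 2 + 2 * p * q - 12 * q ^ 2) :=
    ⟨-(p ^ 2 + 2 * p * q - 12 * q ^ 2) / (2 * p), by field_simp⟩
  have hLL : L * (2 * ((q : ℚ) ^ 3 * (3 * A))) = 3 * ((q : ℚ) ^ 2 * (-3) + 0) ^ 2 +
      2 * ((2 * p * q - 6 * q ^ 2 : ℤ) : ℚ) * ((q : ℚ) ^ 2 * (-3) + 0) +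
        ((-3 * q ^ 2 * (p ^ 2 - 2 * p * q + 9 * q ^ 2) : ℤ) : ℚ) := by
    push_cast
    linear_combination 6 * (q : ℚ) ^ 2 * L * hAq + 3 * (q : ℚ) ^ 2 * hL
  obtain ⟨h', e'⟩ := H4.Tw.double_rel (H25.Tw.nonsing_map hq0 hA' hB' hC' (base_ns hA)) hy hLL
  have hx : L ^ 2 - ((2 * p * q - 6 * q ^ 2 : ℤ) : ℚ) - 2 * ((q : ℚ) ^ 2 * (-3) + 0) = r ^ 2 := by
    push_cast
    have h4 : ((2 : ℚ) * p) ^ 2 ≠ 0 := pow_ne_zero 2 (mul_ne_zero two_ne_zero hp0')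
    apply mul_right_cancel₀ h4
    linear_combination (L * (2 * p) - (p ^ 2 + 2 * p * q - 12 * q ^ 2)) * hL -
      (r * (2 * p) + (p ^ 2 - 2 * p * q + 12 * q ^ 2)) * hr
  have hpvx : 1 < pv l (L ^ 2 - ((2 * p * q - 6 * q ^ 2 : ℤ) : ℚ) -
      2 * ((q : ℚ) ^ 2 * (-3) + 0)) := by
    rw [hx, pv_pow]
    exact one_lt_pow₀ hlr two_ne_zero
  have hfin := Pool.Agent.helper45.Tw.inf_of_pv (int_mem_OO l _) (int_mem_OO l _) (int_mem_OO l 0)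
    h' hpvx hk
  apply hfin
  rw [← e', ← hψ, smul_smul, mul_comm k 2, ← smul_smul, ← map_nsmul, h0, map_zero,
    nsmul_zero]

theorem base_odd {A : ℚ} (hA : A ≠ 0)
    (hinf : ∀ k : ℕ, 0 < k → k • (Point.some (-3) (3 * A) (base_ns hA) :
      (Wc (2 * A - 6) (-3 * (A ^ 2 - 2 * A + 9)) 0).Point) ≠ 0)
    (k : ℕ) (x y : ℚ) (h : (Wc (2 * A - 6) (-3 * (A ^ 2 - 2 * A + 9)) 0).Nonsingular x y)
    (hk : (2 * k + 1) • (Point.some (-3) (3 * A) (base_ns hA) :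
      (Wc (2 * A - 6) (-3 * (A ^ 2 - 2 * A + 9)) 0).Point) = Point.some x y h) :
    ∃ v w : ℚ, v ≠ 0 ∧ x = -3 * v ^ 2 ∧ w ^ 2 = QA A v := by
  have hB : 0 < A ^ 2 - 2 * A + 9 := by nlinarith [sq_nonneg (A - 1)]
  obtain ⟨r, hr0, hr⟩ := H4.Tw.odd_sq (e := 0) (A := 2 * A - 6) (B := -3 * (A ^ 2 - 2 * A + 9))
    (C := 0) (by ring) (by
      intro h0
      nlinarith) (base_ns hA) (by norm_num) hinf k hk
  have hx : x = -3 * (r / 3) ^ 2 := by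
    linear_combination (-1 / 3 : ℚ) * hr
  have hv : r / 3 ≠ 0 := div_ne_zero hr0 (by norm_num)
  refine ⟨r / 3, y / (3 * (r / 3)), hv, hx, ?_⟩
  have he := eqn_iff.1 h.1
  generalize r / 3 = v at hx hv
  subst hx
  rw [div_pow, he]
  unfold QA
  field_simp
  ring

private lemma den_odd {A : ℚ} (h : A.num % 2 = 0) : (A.den : ℤ) % 2 = 1 := by
  by_contra hcon
  have h1 : 2 ∣ A.den := by omega
  have h2 : 2 ∣ A.num.natAbs := by omega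
  exact Nat.not_coprime_of_dvd_of_dvd (by norm_num) h2 h1 A.reduced

private lemma num_even {A : ℚ}
    (h : ¬ (A ≠ 0 ∧ A.num ≠ 2 ∧ A.num ≠ -2 ∧ A.num ≠ 6 ∧ A.num ≠ -6)) : A.num % 2 = 0 := by
  by_cases hA : A = 0
  · simp [hA]
  · by_contra hcon
    apply h
    refine ⟨hA, ?_, ?_, ?_, ?_⟩ <;> omega

/-- `A` and `3 - A` are not both exceptional -/
theorem good_or (A : ℚ) : (A ≠ 0 ∧ A.num ≠ 2 ∧ A.num ≠ -2 ∧ A.num ≠ 6 ∧ A.num ≠ -6) ∨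
    (3 - A ≠ 0 ∧ (3 - A).num ≠ 2 ∧ (3 - A).num ≠ -2 ∧ (3 - A).num ≠ 6 ∧ (3 - A).num ≠ -6) := by
  by_contra hcon
  rw [not_or] at hcon
  have h1 := num_even hcon.1
  have h2 := num_even hcon.2
  have d1 := den_odd h1
  have d2 := den_odd h2
  have e1 := Rat.mul_den_eq_num A
  have e2 := Rat.mul_den_eq_num (3 - A)
  have e : (3 * (A.den : ℤ) * ((3 - A).den : ℤ) : ℤ) =
      A.num * ((3 - A).den : ℤ) + (3 - A).num * (A.den : ℤ) := by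
    have : (3 * (A.den : ℚ) * ((3 - A).den : ℚ) : ℚ) =
        (A.num : ℚ) * ((3 - A).den : ℚ) + ((3 - A).num : ℚ) * (A.den : ℚ) := by
      rw [← e1, ← e2]; ring
    exact_mod_cast this
  obtain ⟨a, ha⟩ : ∃ a, A.num = 2 * a := ⟨A.num / 2, by omega⟩
  obtain ⟨b, hb⟩ : ∃ b, (3 - A).num = 2 * b := ⟨(3 - A).num / 2, by omega⟩
  obtain ⟨c, hc⟩ : ∃ c, (A.den : ℤ) = 2 * c + 1 := ⟨(A.den : ℤ) / 2, by omega⟩
  obtain ⟨d, hd⟩ : ∃ d, ((3 - A).den : ℤ) = 2 * d + 1 := ⟨((3 - A).den : ℤ) / 2, by omega⟩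
  rw [ha, hb, hc, hd] at e
  have : (3 * (2 * c + 1) * (2 * d + 1)) % 2 = 1 := by
    have : 3 * (2 * c + 1) * (2 * d + 1) = 2 * (6 * c * d + 3 * c + 3 * d + 1) + 1 := by ring
    omega
  have h3 : (2 * a * (2 * d + 1) + 2 * b * (2 * c + 1)) % 2 = 0 := by
    have : 2 * a * (2 * d + 1) + 2 * b * (2 * c + 1) =
        2 * (a * (2 * d + 1) + b * (2 * c + 1)) := by ring
    omega
  omega

end H40.Sq
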