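import Pool.Agent.helper78.Tw.C

set_option autoImplicit false

/-!
# SQ-Dom: weighted diagonal dominance

PORT of `linInd_of_dominant` (helper78/Tw/C.lean) with weights. `exists_canonical` gives `q` with
the parallelogram law and `|q P - h P| ≤ C / 2`, and `|bil (P i) (P j)| ≤ b i j + C` for `i ≠ j`.
If `∑ g_j P_j = 0`, `g ≠ 0`, choose `i` with `|g_i| / d_i` maximal (`> 0`). Then
`|g_i| q(P_i) ≤ ∑_{j ≠ i} |g_j| (b i j + C) ≤ (|g_i| / d_i) ∑_{j ≠ i} d_j (b i j + C)`, so
`d_i q(P_i) ≤ ∑_{j ≠ i} d_j (b i j + C)`: contradiction with `hdom` and `q(P_i) ≥ h(P_i) - C / 2`.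
-/

namespace H40.Sq

theorem linInd_of_weighted {G : Type*} [AddCommGroup G] (h : G → ℝ) (C : ℝ)
    (H : ∀ P Q, |h (P + Q) + h (P - Q) - 2 * h P - 2 * h Q| ≤ C) {n : ℕ} (P : Fin n → G)
    (d : Fin n → ℝ) (hd : ∀ i, 0 < d i) (b : Fin n → Fin n → ℝ)
    (hb : ∀ i j, i ≠ j → |h (P i + P j) - h (P i - P j)| ≤ 4 * b i j)
    (hdom : ∀ i, ∑ j ∈ Finset.univ.erase i, d j * (b i j + C) + d i * C < d i * h (P i)) :
    LinearIndependent ℤ P := by
  classical
  obtain ⟨q, hq, hqh⟩ := H78.Tw.exists_canonical h C H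
  have hC : 0 ≤ C := (abs_nonneg _).trans (H 0 0)
  have hF : ∀ i j, i ≠ j → |hq.bil (P i) (P j)| ≤ b i j + C := by
    intro i j hij
    rw [hq.bil_eq, abs_div, abs_of_pos (show (0 : ℝ) < 4 by norm_num)]
    have h1 := hb i j hij
    have h2 := hqh (P i + P j)
    have h3 := hqh (P i - P j)
    rw [abs_le] at h1 h2 h3
    have h4 : |q (P i + P j) - q (P i - P j)| ≤ 4 * (b i j + C) := by
      rw [abs_le]
      constructor <;> linarith
    linarith
  rw [Fintype.linearIndependent_iff]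
  intro g hg
  by_contra hcon
  push Not at hcon
  obtain ⟨i₀, hi₀⟩ := hcon
  obtain ⟨i, -, hi⟩ := Finset.exists_max_image Finset.univ (fun i => |(g i : ℝ)| / d i)
    ⟨i₀, Finset.mem_univ _⟩
  have hdi := hd i
  have hr : 0 < |(g i : ℝ)| / d i := by
    have h1 := hi i₀ (Finset.mem_univ _)
    have h2 : (0 : ℝ) < |(g i₀ : ℝ)| := abs_pos.2 (by exact_mod_cast hi₀)
    exact lt_of_lt_of_le (div_pos h2 (hd i₀)) h1
  have hgi : (0 : ℝ) < |(g i : ℝ)| := by
    have := mul_pos hr hdi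
    rwa [div_mul_cancel₀ _ hdi.ne'] at this
  have h1 : ∑ j, (g j : ℝ) * hq.bil (P i) (P j) = 0 := by
    have := congrArg (hq.bil (P i)) hg
    rw [map_sum, map_zero] at this
    rw [← this]
    refine Finset.sum_congr rfl fun j _ => ?_
    rw [map_zsmul, zsmul_eq_mul]
  rw [← Finset.add_sum_erase _ _ (Finset.mem_univ i), hq.bil_self] at h1
  have h2 : |(g i : ℝ)| * q (P i) ≤
      (|(g i : ℝ)| / d i) * ∑ j ∈ Finset.univ.erase i, d j * (b i j + C) := by
    calc |(g i : ℝ)| * q (P i) ≤ |(g i : ℝ) * q (P i)| := by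
          rw [abs_mul]
          exact mul_le_mul_of_nonneg_left (le_abs_self _) (abs_nonneg _)
      _ = |∑ j ∈ Finset.univ.erase i, (g j : ℝ) * hq.bil (P i) (P j)| := by
          rw [eq_neg_of_add_eq_zero_left h1, abs_neg]
      _ ≤ ∑ j ∈ Finset.univ.erase i, |(g j : ℝ) * hq.bil (P i) (P j)| :=
          Finset.abs_sum_le_sum_abs _ _
      _ ≤ ∑ j ∈ Finset.univ.erase i, (|(g i : ℝ)| / d i) * (d j * (b i j + C)) := by
          refine Finset.sum_le_sum fun j hj => ?_
          rw [abs_mul, ← mul_assoc]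
          have hji : i ≠ j := (Finset.ne_of_mem_erase hj).symm
          have h3 : |(g j : ℝ)| ≤ |(g i : ℝ)| / d i * d j := by
            have := hi j (Finset.mem_univ _)
            rwa [div_le_iff₀ (hd j)] at this
          exact mul_le_mul h3 (hF i j hji) (abs_nonneg _) (mul_nonneg hr.le (hd j).le)
      _ = (|(g i : ℝ)| / d i) * ∑ j ∈ Finset.univ.erase i, d j * (b i j + C) := by
          rw [Finset.mul_sum]
  have h3 : d i * q (P i) ≤ ∑ j ∈ Finset.univ.erase i, d j * (b i j + C) := by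
    refine le_of_mul_le_mul_left ?_ hr
    refine le_trans (le_of_eq ?_) h2
    rw [← mul_assoc, div_mul_cancel₀ _ hdi.ne']
  have h4 := hdom i
  have h5 := hqh (P i)
  rw [abs_le] at h5
  nlinarith [h5.1, hC, hdi]

end H40.Sq
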