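import Pool.Agent.H48.CN.Weier
import Pool.Agent.helper59.Tw.Arc

set_option autoImplicit false

/-!
# SQ-Drift: an orbit `P + k Q` does not stay in an arc

The abstract form of `no_arc_left` of `helper59/Tw/Arc.lean` (read its proof: this is a port, the
coordinate `s = y / x` is replaced by an arbitrary bounded coordinate `τ`).

PROOF. Points of the orbit with different indices are different (`hQ`). For `i ≠ j` apply `add_rel` to
`Point.some (x j) (y j)` and `-Point.some (x i) (y i)` (negY_eq: `-y i`): there are `l, X, Y` with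
`P_j - P_i = (X, Y)`, `l (x j - x i) = y j + y i`,
`l (y j - y i) = x j ^ 2 + x j x i + x i ^ 2 + a (x j + x i) + b`, `X = l^2 - a - x j - x i`,
`Y = -(y j + l (X - x j))`; so `hrel` gives (1) `l e ≤ -κ + K e^2`, (2) `|l e| ≤ K`,
`e = τ j - τ i`. Note `K ≥ 0`; replace `K` by `K + 1` if a positive constant is convenient.
Choose `X0` large: `X0 ≥ 1 + |a| + 3 K + 1` and `(X0 - |a| - 2 K) κ ≥ 4 K^3` or so, such that
`l^2 ≥ X0 - |a| - 2 K` and `|l e| ≤ K` imply `K e^2 ≤ κ / 2`. Pigeonhole for `⌊τ k / η⌋`, `η` small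
(`K η^2 ≤ κ / 2` and `κ / (2 η) ≥ X0 + |a| + 2 K + 1`): there are `i < j` with
`|τ j - τ i| ≤ η`; so `l e ≤ -κ / 2`, `|l| ≥ κ / (2 η)`, `X = l^2 - a - x j - x i ≥ X0`.
Let `d = j - i`, so `d • Q = (X, Y)`. For every `m` the points of index `m d` and `(m + 1) d` have
difference `(X, Y)`; with their `l'`, `e'`: `l'^2 = X + a + x + x' ≥ X0 - |a| - 2 K ≥ 1`,
`|l'| ≤ l'^2 ≤ X + |a| + 2 K =: L`, `K e'^2 ≤ κ / 2`, so `l' e' ≤ -κ / 2`, `|e'| ≥ κ / (2 L) =: c > 0`,
and `Y = -(y' + l' (X - x'))` with `X - x' > K ≥ |y'|`, `|l'| ≥ 1`: so `l' > 0` iff `Y < 0`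
(`step_core` of helper59/Tw/Arc does exactly this and can be cited: import it). So all the increments
`e'` have the sign of `Y` and absolute value at least `c`: `τ (m d)` is unbounded, contradiction.
-/

namespace H40.Sq

open WeierstrassCurve WeierstrassCurve.Affine H48.CN

private theorem drift_aux {a b c κ K : ℚ} (hκ : 0 < κ) (hK : 0 < K) (P Q : (Wc a b c).Point)
    (hQ : ∀ k : ℕ, 0 < k → k • Q ≠ 0) (x y τ : ℕ → ℚ)
    (h : ∀ k, (Wc a b c).Nonsingular (x k) (y k))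
    (hP : ∀ k : ℕ, P + k • Q = Point.some (x k) (y k) (h k))
    (hx : ∀ k, |x k| ≤ K) (hy : ∀ k, |y k| ≤ K) (hτ : ∀ k, |τ k| ≤ K)
    (hrel : ∀ i j : ℕ, ∀ l : ℚ, l * (x j - x i) = y j + y i →
      l * (y j - y i) = x j ^ 2 + x j * x i + x i ^ 2 + a * (x j + x i) + b →
      l * (τ j - τ i) ≤ -κ + K * (τ j - τ i) ^ 2 ∧ |l * (τ j - τ i)| ≤ K) : False := by
  have hA0 : 0 ≤ |a| := abs_nonneg _
  have hA1 := le_abs_self a
  have hA2 := neg_abs_le a
  have hdr : ∀ i j : ℕ, ¬(x j = x i ∧ y j = y i) →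
      ∃ (l X Y : ℚ) (hXY : (Wc a b c).Nonsingular X Y),
        Point.some (x j) (y j) (h j) + -Point.some (x i) (y i) (h i) = Point.some X Y hXY ∧
        l * (τ j - τ i) ≤ -κ + K * (τ j - τ i) ^ 2 ∧ |l * (τ j - τ i)| ≤ K ∧
        X = l ^ 2 - a - x j - x i ∧ Y = -(y j + l * (X - x j)) := by
    intro i j hne
    have hne' : ¬(x j = x i ∧ y j = -((Wc a b c).negY (x i) (y i))) := by
      rw [negY_eq, neg_neg]; exact hne
    obtain ⟨l, X, Y, hXY, hs, r1, r2, r3, r4⟩ := add_rel (h j) ((nonsingular_neg _ _).2 (h i)) hne'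
    rw [negY_eq] at r1 r2
    obtain ⟨q1, q2⟩ := hrel i j l (by linarith) (by linarith)
    refine ⟨l, X, Y, hXY, ?_, q1, q2, r3, r4⟩
    rw [Point.neg_some]; exact hs
  -- the constants
  obtain ⟨R, hR⟩ : ∃ R : ℚ, R = 2 * K ^ 3 / κ := ⟨_, rfl⟩
  have hR0 : 0 < R := by rw [hR]; positivity
  obtain ⟨X0, hX0⟩ : ∃ X0 : ℚ, X0 = R + |a| + 4 * K + 1 := ⟨_, rfl⟩
  obtain ⟨B, hB⟩ : ∃ B : ℚ, B = X0 + |a| + 2 * K + 1 := ⟨_, rfl⟩
  have hB1 : 1 ≤ B := by linarith
  have hKB : K ≤ B := by linarith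
  have hden : 0 < 2 * B + κ := by linarith
  obtain ⟨η, hη⟩ : ∃ η : ℚ, η = κ / (2 * B + κ) := ⟨_, rfl⟩
  have hη0 : 0 < η := by rw [hη]; positivity
  have hηe : η * (2 * B + κ) = κ := by rw [hη]; exact div_mul_cancel₀ _ hden.ne'
  have hη1 : η ≤ 1 := by
    rw [hη, div_le_one hden]; linarith
  have hBη : B * η ≤ κ / 2 := by
    have : 0 < η * κ := mul_pos hη0 hκ
    nlinarith
  have hKη : K * η ^ 2 ≤ κ / 2 := by
    have h1 : K * η ≤ B * η := mul_le_mul_of_nonneg_right hKB hη0.le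
    have h2 : K * η ^ 2 = (K * η) * η := by ring
    have h3 : (K * η) * η ≤ (K * η) * 1 := mul_le_mul_of_nonneg_left hη1 (by positivity)
    linarith
  -- pigeonhole
  obtain ⟨i, j, hij, hfl⟩ : ∃ i j : ℕ, i < j ∧ ⌊τ i / η⌋ = ⌊τ j / η⌋ := by
    have hmaps : ∀ k : ℕ, ⌊τ k / η⌋ ∈ Finset.Icc ⌊-K / η⌋ ⌊K / η⌋ := by
      intro k
      rw [Finset.mem_Icc]
      have h2 := hτ k
      rw [abs_le] at h2
      exact ⟨Int.floor_le_floor (div_le_div_of_nonneg_right h2.1 hη0.le),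
        Int.floor_le_floor (div_le_div_of_nonneg_right h2.2 hη0.le)⟩
    obtain ⟨a', b', hab, hh⟩ := Finite.exists_ne_map_eq_of_infinite
      (fun k : ℕ => (⟨⌊τ k / η⌋, hmaps k⟩ : Finset.Icc ⌊-K / η⌋ ⌊K / η⌋))
    have hh' : ⌊τ a' / η⌋ = ⌊τ b' / η⌋ := congrArg Subtype.val hh
    rcases lt_or_gt_of_ne hab with h1 | h1
    · exact ⟨a', b', h1, hh'⟩
    · exact ⟨b', a', h1, hh'.symm⟩
  have hsmall : |τ j - τ i| ≤ η := by
    have a1 := Int.floor_le (τ i / η)
    have a2 := Int.lt_floor_add_one (τ i / η)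
    have a3 := Int.floor_le (τ j / η)
    have a4 := Int.lt_floor_add_one (τ j / η)
    rw [hfl] at a1 a2
    have h1 : |τ j / η - τ i / η| ≤ 1 := by
      rw [abs_le]; constructor <;> linarith
    rw [← sub_div, abs_div, abs_of_pos hη0, div_le_one hη0] at h1
    exact h1
  obtain ⟨d, hd⟩ : ∃ d, d = j - i := ⟨_, rfl⟩
  have hd0 : 0 < d := by omega
  -- differences of points of the orbit
  have hdQ : ∀ a' b' : ℕ, b' = a' + d →
      Point.some (x b') (y b') (h b') + -Point.some (x a') (y a') (h a') = d • Q := by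
    intro a' b' hab
    rw [← hP b', ← hP a', hab, add_nsmul]; abel
  have hneq : ∀ a' b' : ℕ, b' = a' + d → ¬(x b' = x a' ∧ y b' = y a') := by
    rintro a' b' hab ⟨h1, h2⟩
    apply hQ d hd0
    rw [← hdQ a' b' hab, ← hP a', ← hP b']
    have : P + b' • Q = P + a' • Q := by
      rw [hP a', hP b', Point.some.injEq]; exact ⟨h1, h2⟩
    rw [this]; abel
  have hxb := fun k => abs_le.1 (hx k)
  obtain ⟨l, X, Y, hXY, hdiff, e1, -, e3, -⟩ := hdr i j (hneq i j (by omega))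
  have hδQ : d • Q = Point.some X Y hXY := by rw [← hdQ i j (by omega)]; exact hdiff
  have hXX : X0 ≤ X := by
    have h1 : l * (τ j - τ i) ≤ -(κ / 2) := by
      have h2 : (τ j - τ i) ^ 2 ≤ η ^ 2 := by
        rw [← sq_abs (τ j - τ i)]
        exact pow_le_pow_left₀ (abs_nonneg _) hsmall 2
      have h3 : K * (τ j - τ i) ^ 2 ≤ K * η ^ 2 := mul_le_mul_of_nonneg_left h2 hK.le
      linarith
    have h2 : κ / 2 ≤ |l| * η := by
      calc κ / 2 ≤ |l * (τ j - τ i)| := by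
            have := neg_abs_le (l * (τ j - τ i)); linarith
        _ = |l| * |τ j - τ i| := abs_mul _ _
        _ ≤ |l| * η := mul_le_mul_of_nonneg_left hsmall (abs_nonneg _)
    have h3 : B ≤ |l| := by
      by_contra hcon
      push Not at hcon
      have := mul_lt_mul_of_pos_right hcon hη0
      linarith
    have h4 : |l| ≤ l ^ 2 := by
      rw [← sq_abs l]
      nlinarith
    have := hxb i; have := hxb j
    rw [e3]; linarith
  -- one step
  obtain ⟨L, hL⟩ : ∃ L : ℚ, L = X + |a| + 2 * K := ⟨_, rfl⟩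
  have hL0 : 0 < L := by linarith
  obtain ⟨c', hc⟩ : ∃ c' : ℚ, c' = κ / (2 * L) := ⟨_, rfl⟩
  have hc0 : 0 < c' := by rw [hc]; positivity
  have hcL : c' * L = κ / 2 := by
    rw [hc]; field_simp
  have hstep : ∀ m : ℕ, (0 < Y ∧ τ (m * d) + c' ≤ τ ((m + 1) * d)) ∨
      (Y < 0 ∧ τ ((m + 1) * d) ≤ τ (m * d) - c') := by
    intro m
    have hmd : (m + 1) * d = m * d + d := by ring
    obtain ⟨l', X', Y', hXY', hdiff', f1, f2, f3, f4⟩ := hdr (m * d) ((m + 1) * d) (hneq _ _ hmd)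
    have hh := hdQ _ _ hmd
    rw [hdiff', hδQ, Point.some.injEq] at hh
    obtain ⟨rfl, rfl⟩ := hh
    obtain ⟨e, he⟩ : ∃ e, e = τ ((m + 1) * d) - τ (m * d) := ⟨_, rfl⟩
    rw [← he] at f1 f2
    have g1 := hxb (m * d)
    have g3 := hxb ((m + 1) * d)
    have hl2 : l' ^ 2 = X' + a + x (m * d) + x ((m + 1) * d) := by rw [f3]; ring
    have hlow : R + 1 ≤ l' ^ 2 := by
      rw [hl2]; linarith
    have hupp : l' ^ 2 ≤ L := by rw [hl2]; linarith
    have he2 : K * e ^ 2 ≤ κ / 2 := by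
      have k1 : l' ^ 2 * e ^ 2 ≤ K ^ 2 := by
        rw [← mul_pow, ← sq_abs (l' * e)]
        exact pow_le_pow_left₀ (abs_nonneg _) f2 2
      have k2 : R * e ^ 2 ≤ K ^ 2 := by
        have : R * e ^ 2 ≤ l' ^ 2 * e ^ 2 := mul_le_mul_of_nonneg_right (by linarith) (sq_nonneg e)
        linarith
      rw [hR, div_mul_eq_mul_div, div_le_iff₀ hκ] at k2
      by_contra hcon
      push Not at hcon
      have hK2 : 0 < 2 * K ^ 2 := by positivity
      have k3 := mul_lt_mul_of_pos_left hcon hK2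
      nlinarith
    have hneg : l' * e ≤ -(κ / 2) := by linarith
    have hl1 : 1 ≤ |l'| := by
      apply Pool.Agent.helper59.Tw.one_le_abs_of_sq
      linarith
    have hlL : |l'| ≤ L := by
      have k1 : |l'| * 1 ≤ |l'| * |l'| := mul_le_mul_of_nonneg_left hl1 (abs_nonneg _)
      have k2 : |l'| * |l'| = l' ^ 2 := by rw [← sq, sq_abs]
      linarith
    have hXbig : K < X' - x ((m + 1) * d) := by linarith
    rcases Pool.Agent.helper59.Tw.step_core hκ hl1 hlL hneg hcL hXbig (hy _) f4 with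
      ⟨k1, k2⟩ | ⟨k1, k2⟩
    · exact Or.inl ⟨k1, by linarith⟩
    · exact Or.inr ⟨k1, by linarith⟩
  have hbs := fun k => abs_le.1 (hτ k)
  obtain ⟨m, hm⟩ := exists_nat_gt (2 * K / c')
  rw [div_lt_iff₀ hc0] at hm
  rcases hstep 0 with ⟨hY, -⟩ | ⟨hY, -⟩
  · have hind : ∀ m : ℕ, τ 0 + m * c' ≤ τ (m * d) := by
      intro m
      induction m with
      | zero => simp
      | succ m ih =>
        rcases hstep m with ⟨-, h2⟩ | ⟨h1, -⟩
        · push_cast; linarith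
        · linarith
    have h1 := hind m
    have h2 := (hbs 0).1
    have h3 := (hbs (m * d)).2
    linarith
  · have hind : ∀ m : ℕ, τ (m * d) ≤ τ 0 - m * c' := by
      intro m
      induction m with
      | zero => simp
      | succ m ih =>
        rcases hstep m with ⟨h1, -⟩ | ⟨-, h2⟩
        · linarith
        · push_cast; linarith
    have h1 := hind m
    have h2 := (hbs 0).2
    have h3 := (hbs (m * d)).1
    linarith

theorem no_drift {a b c κ K : ℚ} (hκ : 0 < κ) (P Q : (Wc a b c).Point)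
    (hQ : ∀ k : ℕ, 0 < k → k • Q ≠ 0) (x y τ : ℕ → ℚ)
    (h : ∀ k, (Wc a b c).Nonsingular (x k) (y k))
    (hP : ∀ k : ℕ, P + k • Q = Point.some (x k) (y k) (h k))
    (hx : ∀ k, |x k| ≤ K) (hy : ∀ k, |y k| ≤ K) (hτ : ∀ k, |τ k| ≤ K)
    (hrel : ∀ i j : ℕ, ∀ l : ℚ, l * (x j - x i) = y j + y i →
      l * (y j - y i) = x j ^ 2 + x j * x i + x i ^ 2 + a * (x j + x i) + b →
      l * (τ j - τ i) ≤ -κ + K * (τ j - τ i) ^ 2 ∧ |l * (τ j - τ i)| ≤ K) : False := by
  have hK0 : 0 ≤ K := (abs_nonneg _).trans (hx 0)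
  refine drift_aux (K := K + 1) hκ (by linarith) P Q hQ x y τ h hP
    (fun k => (hx k).trans (by linarith)) (fun k => (hy k).trans (by linarith))
    (fun k => (hτ k).trans (by linarith)) ?_
  intro i j l h1 h2
  obtain ⟨q1, q2⟩ := hrel i j l h1 h2
  refine ⟨?_, q2.trans (by linarith)⟩
  have := sq_nonneg (τ j - τ i)
  linarith

end H40.Sq
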