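import Pool.Agent.helper40.Sq.Arcs
import Pool.Agent.helper17.Tw.Engine

set_option autoImplicit false

/-!
# SQ-Eng: infinitely many square classes along an orbit

PORT of `H17.Tw.engine_of` (helper17/Tw/Engine.lean), whose proof is copied with these changes:
the curve is `Wc a b 0` with `b < 0` (rational coefficients, no `α`, `β`); `hdisc` is
`b ^ 2 * (a ^ 2 - 4 * b) ≠ 0` (`noSing_of`); all auxiliary lemmas (`pv_large`, `mem_large`,
`coeff_large`, `eval_congr`, `x_inj`, `odd_neg` with `B := b < 0`, `exists_ker`, `add_ker_mul`) can be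
cited from there; instead of `egg_ge`: `y^2 = x (x^2 + a x + b)` and `x < 0` give
`x^2 + a x + b ≤ 0`. At the end: if `w` is a square then all `f (x_k) > 0`, so `x_k < -δ₁`
(otherwise `hneg`): `no_left` with `δ₁`; if not then all `f (x_k) < 0`, so `-δ₂ < x_k < 0`
(otherwise `hpos`): `no_right` with `δ₂`.
-/

namespace H40.Sq

open WeierstrassCurve WeierstrassCurve.Affine H48.CN Polynomial H17.Tw
open scoped NumberTheorySymbols

/-- A point with negative `x`. -/
private theorem quad_le {a b x y : ℚ} (hx : x < 0)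
    (e : y ^ 2 = x ^ 3 + a * x ^ 2 + b * x + 0) : x ^ 2 + a * x + b ≤ 0 := by
  by_contra hlt
  push Not at hlt
  have h1 : x * (x ^ 2 + a * x + b) < 0 := mul_neg_of_neg_of_pos hx hlt
  have h3 : y ^ 2 = x * (x ^ 2 + a * x + b) := by rw [e]; ring
  nlinarith [sq_nonneg y]

theorem engine {a b δ₁ δ₂ : ℚ} (hb : b < 0) (hδ₁ : 0 < δ₁) (hδ₂ : 0 < δ₂)
    (hq : δ₂ ^ 2 - a * δ₂ + b < 0) {x0 y0 : ℚ}
    (h0 : (Wc a b 0).Nonsingular x0 y0) (hx0 : x0 < 0)
    (hinf : ∀ k : ℕ, 0 < k → k • (Point.some x0 y0 h0 : (Wc a b 0).Point) ≠ 0)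
    (f : Polynomial ℚ) (hf0 : f.eval x0 ≠ 0)
    (hpos : ∀ x : ℚ, x ≤ -δ₂ → x ^ 2 + a * x + b ≤ 0 → 0 < f.eval x)
    (hneg : ∀ x : ℚ, -δ₁ ≤ x → x < 0 → f.eval x < 0)
    (S : Set ℤ) (F : Set ℚ) (hF : F.Finite)
    (hS : ∀ (k : ℕ) (x y : ℚ) (h : (Wc a b 0).Nonsingular x y),
      (2 * k + 1) • (Point.some x0 y0 h0 : (Wc a b 0).Point) = Point.some x y h →
      x ∉ F → ∃ N ∈ S, ∃ t : ℚ, t ≠ 0 ∧ N ≠ 0 ∧ f.eval x = N * t ^ 2) :
    S.Infinite := by
  intro hfin
  set P0 : (Wc a b 0).Point := Point.some x0 y0 h0 with hP0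
  set G := (hfin.toFinset.filter (· ≠ 0)).image Int.natAbs with hG
  set M := ∏ N ∈ G, N with hM
  have hGpos : ∀ N ∈ G, 0 < N := by
    intro N hN
    rw [hG, Finset.mem_image] at hN
    obtain ⟨z, hz, rfl⟩ := hN
    exact Int.natAbs_pos.2 (Finset.mem_filter.1 hz).2
  have hGmem : ∀ N ∈ S, N ≠ 0 → N.natAbs ∈ G := by
    intro N hN h0
    rw [hG]
    exact Finset.mem_image_of_mem _ (Finset.mem_filter.2 ⟨hfin.mem_toFinset.2 hN, h0⟩)
  have hMpos : 0 < M := Finset.prod_pos hGpos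
  -- the constants
  obtain ⟨L1, hL1⟩ := mem_large a
  obtain ⟨L2, hL2⟩ := mem_large b
  obtain ⟨L3, hL3⟩ := mem_large x0
  obtain ⟨L4, hL4⟩ := coeff_large f
  obtain ⟨L5, hL5⟩ := pv_large hf0
  obtain ⟨L6, hL6⟩ := pv_large (q := 2) two_ne_zero
  have hdisc : b ^ 2 * (a ^ 2 - 4 * b) ≠ 0 := by
    have h3 : 0 < a ^ 2 - 4 * b := by nlinarith [sq_nonneg a]
    exact mul_ne_zero (pow_ne_zero 2 hb.ne) h3.ne'
  obtain ⟨L7, hL7⟩ := pv_large hdisc
  -- the prime
  obtain ⟨l, hlgt, hlp, hlmod⟩ := Nat.forall_exists_prime_gt_and_modEq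
    (M + (L1 + L2 + L3 + L4 + L5 + L6 + L7)) (q := 4 * M) (a := 4 * M - 1) (by omega) (by
      have h1 : 4 * M = (4 * M - 1) + 1 := by omega
      have h2 : (4 * M - 1).Coprime ((4 * M - 1) + 1) :=
        Nat.coprime_self_add_right.2 (Nat.coprime_one_right _)
      rwa [← h1] at h2)
  have hldvd : 4 * M ∣ l + 1 := by
    have h1 : l + 1 ≡ (4 * M - 1) + 1 [MOD 4 * M] := hlmod.add_right 1
    have h2 : (4 * M - 1) + 1 = 4 * M := by omega
    rw [h2] at h1
    exact (Nat.modEq_zero_iff_dvd.1 (h1.trans (by simp [Nat.ModEq])))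
  have hfact : Fact l.Prime := ⟨hlp⟩
  have hl3 : l % 4 = 3 := by
    obtain ⟨k, hk⟩ := hldvd
    have : 4 * M * k = 4 * (M * k) := by ring
    omega
  have hnsq : ¬ IsSquare (-1 : ZMod l) := by
    rw [ZMod.exists_sq_eq_neg_one_iff]; omega
  have mA : a ∈ OO l := hL1 l (by omega)
  have mB : b ∈ OO l := hL2 l (by omega)
  have mx0 : x0 ∈ OO l := hL3 l (by omega)
  have mf : ∀ i, f.coeff i ∈ OO l := hL4 l (by omega)
  have uf : pv l (f.eval x0) = 1 := hL5 l (by omega)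
  have u2 : pv l 2 = 1 := hL6 l (by omega)
  have ud := hL7 l (by omega)
  have mC : (0 : ℚ) ∈ OO l := zero_mem _
  have hsq : ∀ N ∈ G, ∃ c : ZMod l, c ≠ 0 ∧ (N : ZMod l) = c * c := by
    intro N hN
    have h1 : J(N | l) = 1 := jac_one (hGpos N hN)
      (mod_neg_one (hGpos N hN) (Finset.dvd_prod_of_mem _ hN) hldvd)
    obtain ⟨c, hc⟩ := ZMod.isSquare_of_jacobiSym_eq_one h1
    rw [Int.cast_natCast] at hc
    refine ⟨c, ?_, hc⟩
    rintro rfl
    have hNM : N ≤ M := Nat.le_of_dvd hMpos (Finset.dvd_prod_of_mem _ hN)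
    exact natCast_ne_zero_of_lt (p := l) (hGpos N hN) (by omega) (by rw [hc]; ring)
  set w : ZMod l := rd l ⟨f.eval x0, eval_mem mf mx0⟩ with hw
  have hw0 : w ≠ 0 := by
    intro h
    rw [hw, rd_eq_zero] at h
    change pv l (f.eval x0) < 1 at h
    rw [uf] at h
    exact absurd h (lt_irrefl _)
  -- local squares
  have key : ∀ x : ℚ, pv l (x - x0) < 1 → (∃ N ∈ S, ∃ t : ℚ, t ≠ 0 ∧ N ≠ 0 ∧
      f.eval x = N * t ^ 2) → (0 < f.eval x ∧ IsSquare w) ∨ (f.eval x < 0 ∧ IsSquare (-w)) := by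
    rintro x hx ⟨N, hNS, t, ht, hN0, hNt⟩
    have mx : x ∈ OO l := by
      have : x = (x - x0) + x0 := by ring
      rw [this]; exact add_mem (le_of_lt hx : pv l (x - x0) ≤ 1) mx0
    have hcong := eval_congr mf mx mx0 hx
    have hrd : rd l ⟨f.eval x, eval_mem mf mx⟩ = w := (rd_eq_iff _ _).2 hcong
    have hNG := hGmem N hNS hN0
    have hNM : N.natAbs ≤ M := Nat.le_of_dvd hMpos (Finset.dvd_prod_of_mem _ hNG)
    have hNpos := hGpos _ hNG
    have hpN' : pv l ((N.natAbs : ℕ) : ℚ) = 1 :=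
      pv_nat_one (fun h => absurd (Nat.le_of_dvd hNpos h) (by omega))
    have hpN : pv l (N : ℚ) = 1 := by
      rcases Int.natAbs_eq N with h | h
      · rw [h, Int.cast_natCast]; exact hpN'
      · rw [h, Int.cast_neg, Int.cast_natCast, pv_neg]; exact hpN'
    have hpf : pv l (f.eval x) = 1 := by
      have : f.eval x = f.eval x0 + (f.eval x - f.eval x0) := by ring
      rw [this, pv_add_eq, uf]
      rw [uf]; exact hcong
    have hpt : pv l t = 1 := by
      rw [hNt, pv_mul, hpN, one_mul, pv_pow] at hpf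
      exact (pow_eq_one_iff_of_nonneg (pv_nonneg l t) two_ne_zero).1 hpf
    have htO : t ∈ OO l := hpt.le
    obtain ⟨c, hc, hcN⟩ := hsq _ hNG
    have ht2 : 0 < t ^ 2 := by positivity
    have hNrd : rd l (N.natAbs : OO l) = (N.natAbs : ZMod l) := map_natCast (rd l) _
    rcases lt_or_gt_of_ne hN0 with hneg' | hpos'
    · right
      have hNabs : (N : ℚ) = -((N.natAbs : ℕ) : ℚ) := by
        have h1 : N = -((N.natAbs : ℕ) : ℤ) := by omega
        have h2 : ((N : ℤ) : ℚ) = ((-((N.natAbs : ℕ) : ℤ) : ℤ) : ℚ) := congrArg _ h1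
        rw [Int.cast_neg, Int.cast_natCast] at h2
        exact h2
      have hNq : (N : ℚ) < 0 := by exact_mod_cast hneg'
      refine ⟨by rw [hNt]; exact mul_neg_of_neg_of_pos hNq ht2, c * rd l ⟨t, htO⟩, ?_⟩
      have h1 : (⟨f.eval x, eval_mem mf mx⟩ : OO l) = -((N.natAbs : OO l) * ⟨t, htO⟩ ^ 2) :=
        Subtype.ext (by
          have : ((-((N.natAbs : OO l) * ⟨t, htO⟩ ^ 2) : OO l) : ℚ) =
            -(((N.natAbs : ℕ) : ℚ) * t ^ 2) := rfl
          rw [this]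
          change f.eval x = _
          rw [hNt, hNabs]; ring)
      rw [← hrd, h1, map_neg, map_mul, map_pow, hNrd, hcN]; ring
    · left
      have hNabs : (N : ℚ) = ((N.natAbs : ℕ) : ℚ) := by
        have h1 : N = ((N.natAbs : ℕ) : ℤ) := by omega
        have h2 : ((N : ℤ) : ℚ) = ((((N.natAbs : ℕ) : ℤ) : ℤ) : ℚ) := congrArg _ h1
        rw [Int.cast_natCast] at h2
        exact h2
      have hNq : 0 < (N : ℚ) := by exact_mod_cast hpos'
      refine ⟨by rw [hNt]; exact mul_pos hNq ht2, c * rd l ⟨t, htO⟩, ?_⟩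
      have h1 : (⟨f.eval x, eval_mem mf mx⟩ : OO l) = (N.natAbs : OO l) * ⟨t, htO⟩ ^ 2 :=
        Subtype.ext (by
          have : (((N.natAbs : OO l) * ⟨t, htO⟩ ^ 2 : OO l) : ℚ) =
            ((N.natAbs : ℕ) : ℚ) * t ^ 2 := rfl
          rw [this]
          change f.eval x = _
          rw [hNt, hNabs]
          )
      rw [← hrd, h1, map_mul, map_pow, hNrd, hcN]; ring
  -- the kernel element
  obtain ⟨r, hr, hker⟩ := exists_ker mA mB mC u2 (noSing_of mA mB ud) P0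
  have hall : ∀ k : ℕ, ∃ (x y : ℚ) (h : (Wc a b 0).Nonsingular x y),
      (2 * (r * k) + 1) • P0 = Point.some x y h ∧ pv l (x - x0) < 1 := by
    intro k
    obtain ⟨x, y, h, hP, hx⟩ := add_ker_mul mA mB mC hP0 mx0 hker (2 * k)
    refine ⟨x, y, h, ?_, hx⟩
    rw [← hP, ← mul_nsmul, add_nsmul, one_nsmul, add_comm]
    congr 2; ring
  choose x y h hxk hcon using hall
  have hxneg : ∀ k, x k < 0 := fun k => odd_neg hb h0 hx0 hinf _ (hxk k)
  have hxge : ∀ k, x k ^ 2 + a * x k + b ≤ 0 := fun k =>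
    quad_le (hxneg k) (eqn_iff.1 (h k).1)
  have hinj : Function.Injective x := by
    intro i j hij
    have hj := hxk j
    have hn : (Wc a b 0).Nonsingular (x i) (y j) := by
      rw [hij]; exact h j
    have h1 : (Point.some (x j) (y j) (h j) : (Wc a b 0).Point) =
        Point.some (x i) (y j) hn := by
      congr 1; exact hij.symm
    rw [h1] at hj
    have h2 := x_inj hinf (hxk i) hj
    exact Nat.eq_of_mul_eq_mul_left hr h2
  obtain ⟨K, hK⟩ : ∃ K : ℕ, ∀ k, K ≤ k → x k ∉ F := by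
    have h1 : (x ⁻¹' F).Finite := hF.preimage hinj.injOn
    obtain ⟨K, hK⟩ := h1.bddAbove
    refine ⟨K + 1, fun k hk hmem => ?_⟩
    have := hK hmem
    omega
  have hkey : ∀ k, K ≤ k → (0 < f.eval (x k) ∧ IsSquare w) ∨ (f.eval (x k) < 0 ∧ IsSquare (-w)) :=
    fun k hk => key (x k) (hcon k) (hS _ _ _ (h k) (hxk k) (hK k hk))
  have hnot : ¬ (IsSquare w ∧ IsSquare (-w)) := by
    rintro ⟨⟨a, ha⟩, ⟨b, hb⟩⟩
    apply hnsq
    have ha0 : a ≠ 0 := by rintro rfl; apply hw0; rw [ha]; ring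
    refine ⟨b / a, ?_⟩
    have h1 : a * a + b * b = 0 := by rw [← ha, ← hb]; ring
    field_simp
    linear_combination -h1
  have hQinf : ∀ k : ℕ, 0 < k → k • ((2 * r) • P0) ≠ 0 := by
    intro k hk
    rw [← mul_nsmul']
    exact hinf _ (by positivity)
  have hsum : ∀ k : ℕ, (2 * (r * K) + 1) • P0 + k • ((2 * r) • P0) =
      Point.some (x (K + k)) (y (K + k)) (h (K + k)) := by
    intro k
    rw [← hxk, ← mul_nsmul', ← add_nsmul]
    congr 1; ring
  by_cases hsw : IsSquare w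
  · apply no_left hb hδ₁ ((2 * (r * K) + 1) • P0) ((2 * r) • P0) hQinf
    intro k
    refine ⟨_, _, _, hsum k, ?_⟩
    rcases hkey (K + k) (by omega) with h1 | h1
    · by_contra hge
      push Not at hge
      exact absurd (hneg _ hge.le (hxneg _)) (not_lt.2 h1.1.le)
    · exact absurd ⟨hsw, h1.2⟩ hnot
  · apply no_right hb hδ₂ hq ((2 * (r * K) + 1) • P0) ((2 * r) • P0) hQinf
    intro k
    refine ⟨_, _, _, hsum k, ?_, hxneg _⟩
    rcases hkey (K + k) (by omega) with h1 | h1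
    · exact absurd h1.2 hsw
    · by_contra hge
      push Not at hge
      exact absurd (hpos _ hge.le (hxge _)) (not_lt.2 h1.1.le)

end H40.Sq
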