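import Pool.Agent.helper40.Sq.FinA
import Pool.Agent.helper79.Tw.Gen3

set_option autoImplicit false

/-!
# Infinitely many twists of rank at least three: all curves with square discriminant
-/

namespace H40.Sq

open WeierstrassCurve WeierstrassCurve.Affine H48.CN H79.Tw Height Iface

/-- the curve `Y^2 = X^3 + a D^2 X + b D^3` -/
def WD (a b D : ℚ) : WeierstrassCurve.Affine ℚ := Wc 0 (a * D ^ 2) (b * D ^ 3)

/-- from the family `PA` to the curve -/
theorem of_RA {a b δ : ℚ} (hδ : δ ≠ 0) (h : -4 * a ^ 3 - 27 * b ^ 2 = δ ^ 2) {A : ℚ}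
    (hA : A = 3 / 2 + 27 * b / (2 * δ)) (hR : (RA A).Infinite) :
    {D : ℤ | Squarefree D ∧ ∃ P : Fin 3 → (WD a b D).Point, LinearIndependent ℤ P}.Infinite := by
  have ha : a ≠ 0 := by
    rintro rfl
    have h1 : 0 < δ ^ 2 := by positivity
    nlinarith [sq_nonneg b]
  refine transfer (g := δ / (3 * a)) (div_ne_zero hδ (mul_ne_zero three_ne_zero ha))
    (fun N => TG (-A) (A - 3) 1 N) (WD a b) ?_ hR
  intro N D k _ _ hk hD
  have hm : (A ^ 2 - 3 * A + 9) * δ ^ 2 = -27 * a ^ 3 := by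
    rw [hA]
    field_simp
    linear_combination (-27 : ℚ) * h
  have hNk : N * k ^ 2 * (3 * a) = D * δ := by
    rw [← hD]
    field_simp
  have h2A : (2 * A - 3) * δ = 27 * b := by
    rw [hA]
    field_simp
    ring
  refine transport hk (r := -A * (N * k ^ 2) / 3) ?_ ?_ ?_
  · ring
  · -- `a D^2 = (A - 3) N^2 k^4 - A^2 / 3 (N k^2)^2`
    have h1 : a * D ^ 2 * δ ^ 2 = -(A ^ 2 - 3 * A + 9) / 3 * (N * k ^ 2) ^ 2 * δ ^ 2 := by
      have h3 : (D * δ) ^ 2 = (N * k ^ 2 * (3 * a)) ^ 2 := by rw [hNk]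
      linear_combination a * h3 + (N * k ^ 2) ^ 2 / 3 * hm
    have h2 : a * D ^ 2 = -(A ^ 2 - 3 * A + 9) / 3 * (N * k ^ 2) ^ 2 :=
      mul_right_cancel₀ (pow_ne_zero 2 hδ) h1
    rw [h2]
    ring
  · have h1 : b * D ^ 3 * δ ^ 3 = -(2 * A - 3) * (A ^ 2 - 3 * A + 9) / 27 * (N * k ^ 2) ^ 3 * δ ^ 3 := by
      have h3 : (D * δ) ^ 3 = (N * k ^ 2 * (3 * a)) ^ 3 := by rw [hNk]
      linear_combination b * h3 + (N * k ^ 2) ^ 3 * (2 * A - 3) * δ / 27 * hm -
        a ^ 3 * (N * k ^ 2) ^ 3 * h2A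
    have h2 : b * D ^ 3 = -(2 * A - 3) * (A ^ 2 - 3 * A + 9) / 27 * (N * k ^ 2) ^ 3 :=
      mul_right_cancel₀ (pow_ne_zero 3 hδ) h1
    rw [h2]
    ring

theorem sq_infinite {a b δ : ℚ} (hδ : δ ≠ 0) (h : -4 * a ^ 3 - 27 * b ^ 2 = δ ^ 2) :
    {D : ℤ | Squarefree D ∧ ∃ P : Fin 3 → (WD a b D).Point, LinearIndependent ℤ P}.Infinite := by
  by_cases hb : b = 0
  · -- full rational 2-torsion
    subst hb
    have ha : a ≠ 0 := by
      rintro rfl
      apply hδ
      have h1 : δ ^ 2 = 0 := by rw [← h]; ring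
      exact pow_eq_zero_iff two_ne_zero |>.1 h1
    obtain ⟨s, hs⟩ : ∃ s : ℚ, a = -s ^ 2 := by
      refine ⟨δ / (2 * a), ?_⟩
      field_simp
      linear_combination -h
    have hs0 : s ≠ 0 := by
      rintro rfl
      apply ha
      rw [hs]; ring
    have h1 := all_infinite (e₁ := 0) (e₂ := s) (e₃ := -s) (Ne.symm hs0)
      (by intro h2; apply hs0; linarith) (by intro h2; apply hs0; linarith)
    have h2 : Wt 0 s (-s) = WD a 0 := by
      funext D
      unfold Wt WD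
      rw [hs]
      congr 1 <;> ring
    rw [h2] at h1
    exact h1
  · set A : ℚ := 3 / 2 + 27 * b / (2 * δ) with hA
    have h32 : A ≠ 3 / 2 := by
      intro h1
      have h2 : 27 * b / (2 * δ) = 0 := by linarith
      rw [div_eq_zero_iff] at h2
      rcases h2 with h2 | h2
      · apply hb; linarith
      · apply hδ; linarith
    rcases good_or A with ⟨g1, g2, g3, g4, g5⟩ | ⟨g1, g2, g3, g4, g5⟩
    · exact of_RA hδ h hA (RA_infinite g1 g2 g3 g4 g5 h32)
    · refine of_RA (δ := -δ) (neg_ne_zero.2 hδ) (by rw [h]; ring) (A := 3 - A) ?_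
        (RA_infinite g1 g2 g3 g4 g5 ?_)
      · rw [hA]
        field_simp
        ring
      · intro h1
        apply h32
        linarith

end H40.Sq
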