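import Pool.Agent.helper40.Sq.Defs

set_option autoImplicit false

/-!
# SQ-Signs: the sign of `PA A (1 - x / 3)` on the egg

Put `u = -x / 3 > 0`: `PA A (1 + u) = u^3 + (3 - A) u^2 - A u - 1 =: g u`. (`unfold PA; ring`)
(1) If `g u0 > 0`, `0 < u0 ≤ u` then `g u > 0`: if `A ≤ 0` then `g` is increasing on `u ≥ 0`; if
`A ≥ 0` then `g u / u^2 = u + (3 - A) - A / u - 1 / u^2` is increasing on `u > 0`.
(2) `δ₁`: `g u ≤ u^3 + |3 - A| u^2 + |A| u - 1 < 0` for `0 ≤ u ≤ η := 1 / (3 + |A| + |3 - A|)`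
(`η ≤ 1`, `u^3 ≤ u`, `u^2 ≤ u`); `δ₁ = 3 η`.
(3) `δ₂`: let `m = A^2 - 3 A + 9 > 0`. For a rational `μ` put `z = (A + 2 μ) / 3`, `u0 = z - 1`,
`δ₂ = 3 u0 = A + 2 μ - 3`. Then `δ₂^2 - (2 A - 6) δ₂ - 3 (A^2 - 2 A + 9) = 4 (μ^2 - m)` and
`PA A z = (8 μ^3 - 6 m μ - (2 A - 3) m) / 27` (both by `ring`). In the limit `μ → √m` (real):
`δ₂ → A + 2 √m - 3 > 0` (`4 m - (3 - A)^2 = 3 (A^2 - 2 A + 9) > 0`) and
`27 PA A z → m (2 √m - (2 A - 3)) > 0` (`4 m - (2 A - 3)^2 = 27 > 0`). So by continuity there is a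
rational `μ < √m`, close to `√m` (`μ > 0`, so `μ^2 < m`), with `δ₂ > 0`, `PA A z > 0`.
[Continuity at `√m` of `μ ↦ A + 2 μ - 3` and `μ ↦ 8 μ^3 - 6 m μ - (2 A - 3) m` and `exists_rat_btwn`;
e.g. `(Continuous...).tendsto`, `eventually` in `𝓝[<] √m`, or an explicit estimate.]
For `x ≤ -δ₂`: `u = -x / 3 ≥ u0`, `g u0 = PA A z > 0`, use (1).
-/

namespace H40.Sq

private theorem sg_mono {A u0 u : ℚ} (h0 : 0 < u0) (hu : u0 ≤ u)
    (hg : 0 < PA A (1 + u0)) : 0 < PA A (1 + u) := by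
  have e : ∀ w : ℚ, PA A (1 + w) = w ^ 3 + (3 - A) * w ^ 2 - A * w - 1 := by
    intro w; unfold PA; ring
  rw [e] at hg ⊢
  have hu' : 0 < u := lt_of_lt_of_le h0 hu
  have hd : 0 ≤ u - u0 := sub_nonneg.2 hu
  rcases le_total A 0 with hA | hA
  · have h1 : 0 ≤ (u - u0) * (u ^ 2 + u * u0 + u0 ^ 2 + (3 - A) * (u + u0) - A) := by
      apply mul_nonneg hd
      have h2 : 0 ≤ (3 - A) * (u + u0) := mul_nonneg (by linarith) (by linarith)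
      have h3 : 0 ≤ u ^ 2 + u * u0 + u0 ^ 2 := by positivity
      linarith
    have h2 : u ^ 3 + (3 - A) * u ^ 2 - A * u - 1 =
        (u0 ^ 3 + (3 - A) * u0 ^ 2 - A * u0 - 1) +
          (u - u0) * (u ^ 2 + u * u0 + u0 ^ 2 + (3 - A) * (u + u0) - A) := by ring
    rw [h2]
    linarith
  · have h1 : 0 ≤ (u - u0) * (u0 ^ 2 * u ^ 2 + A * (u * u0) + (u + u0)) := by
      apply mul_nonneg hd
      have h2 : 0 ≤ A * (u * u0) := mul_nonneg hA (by positivity)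
      have h3 : 0 ≤ u0 ^ 2 * u ^ 2 := by positivity
      linarith
    have h2 : (u ^ 3 + (3 - A) * u ^ 2 - A * u - 1) * u0 ^ 2 =
        (u0 ^ 3 + (3 - A) * u0 ^ 2 - A * u0 - 1) * u ^ 2 +
          (u - u0) * (u0 ^ 2 * u ^ 2 + A * (u * u0) + (u + u0)) := by ring
    have h3 : 0 < (u0 ^ 3 + (3 - A) * u0 ^ 2 - A * u0 - 1) * u ^ 2 := by positivity
    have h4 : 0 < (u ^ 3 + (3 - A) * u ^ 2 - A * u - 1) * u0 ^ 2 := by
      rw [h2]; linarith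
    exact pos_of_mul_pos_left h4 (by positivity)

private theorem sg_neg (A : ℚ) : ∃ δ₁ : ℚ, 0 < δ₁ ∧
    (∀ x : ℚ, -δ₁ ≤ x → x < 0 → PA A (1 - x / 3) < 0) := by
  set K : ℚ := 3 + |A| + |3 - A| with hK
  have hK3 : 3 ≤ K := by
    have h1 := abs_nonneg A
    have h2 := abs_nonneg (3 - A)
    linarith
  have hKpos : 0 < K := by linarith
  refine ⟨3 * (1 / K), by positivity, fun x hx hx0 => ?_⟩
  have e : PA A (1 - x / 3) = (-x / 3) ^ 3 + (3 - A) * (-x / 3) ^ 2 - A * (-x / 3) - 1 := by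
    unfold PA; ring
  rw [e]
  set u : ℚ := -x / 3 with hu
  have hu0 : 0 < u := by rw [hu]; linarith
  have huK : u ≤ 1 / K := by rw [hu]; linarith
  have huK' : u * K ≤ 1 := by
    have := mul_le_mul_of_nonneg_right huK hKpos.le
    rwa [one_div_mul_cancel hKpos.ne'] at this
  have hu1 : u ≤ 1 := by nlinarith
  have h2 : u ^ 2 ≤ u := by nlinarith
  have h3 : u ^ 3 ≤ u := by nlinarith
  have h4 : (3 - A) * u ^ 2 ≤ |3 - A| * u := by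
    calc (3 - A) * u ^ 2 ≤ |3 - A| * u ^ 2 :=
          mul_le_mul_of_nonneg_right (le_abs_self _) (by positivity)
      _ ≤ |3 - A| * u := mul_le_mul_of_nonneg_left h2 (abs_nonneg _)
  have h5 : -A * u ≤ |A| * u := mul_le_mul_of_nonneg_right (neg_le_abs A) hu0.le
  have h6 : u * K = 3 * u + |A| * u + |3 - A| * u := by rw [hK]; ring
  linarith

private theorem sg_mu (A : ℚ) : ∃ μ : ℚ, μ ^ 2 < A ^ 2 - 3 * A + 9 ∧ 0 < A + 2 * μ - 3 ∧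
    0 < 8 * μ ^ 3 - 6 * (A ^ 2 - 3 * A + 9) * μ - (2 * A - 3) * (A ^ 2 - 3 * A + 9) := by
  have hm : (0 : ℝ) < (A : ℝ) ^ 2 - 3 * A + 9 := by nlinarith [sq_nonneg ((A : ℝ) - 3 / 2)]
  set m : ℝ := (A : ℝ) ^ 2 - 3 * A + 9 with hmdef
  set s : ℝ := Real.sqrt m with hs
  have hs0 : 0 < s := Real.sqrt_pos.2 hm
  have hs2 : s ^ 2 = m := Real.sq_sqrt hm.le
  have h1 : 0 < (A : ℝ) + 2 * s - 3 := by
    have h : 3 - (A : ℝ) < 2 * s := by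
      apply lt_of_pow_lt_pow_left₀ 2 (by positivity)
      have : (2 * s) ^ 2 = 4 * m := by rw [mul_pow, hs2]; norm_num
      rw [this, hmdef]
      nlinarith [sq_nonneg ((A : ℝ) - 1)]
    linarith
  have h2 : 0 < 8 * s ^ 3 - 6 * m * s - (2 * (A : ℝ) - 3) * m := by
    have h : 2 * (A : ℝ) - 3 < 2 * s := by
      apply lt_of_pow_lt_pow_left₀ 2 (by positivity)
      have : (2 * s) ^ 2 = 4 * m := by rw [mul_pow, hs2]; norm_num
      rw [this, hmdef]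
      nlinarith
    have e : 8 * s ^ 3 - 6 * m * s - (2 * (A : ℝ) - 3) * m = m * (2 * s - (2 * (A : ℝ) - 3)) := by
      have : s ^ 3 = m * s := by rw [pow_succ, hs2]
      rw [this]; ring
    rw [e]
    exact mul_pos hm (by linarith)
  have c1 : Continuous (fun t : ℝ => (A : ℝ) + 2 * t - 3) := by fun_prop
  have c2 : Continuous (fun t : ℝ => 8 * t ^ 3 - 6 * m * t - (2 * (A : ℝ) - 3) * m) := by fun_prop
  have ev : ∀ᶠ t in nhds s, (0 < (A : ℝ) + 2 * t - 3 ∧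
      0 < 8 * t ^ 3 - 6 * m * t - (2 * (A : ℝ) - 3) * m) ∧ 0 < t :=
    ((c1.tendsto s).eventually_const_lt h1 |>.and ((c2.tendsto s).eventually_const_lt h2)).and
      (lt_mem_nhds hs0)
  obtain ⟨l, r, ⟨hl, hr⟩, hsub⟩ := mem_nhds_iff_exists_Ioo_subset.1 ev
  obtain ⟨μ, hμ1, hμ2⟩ := exists_rat_btwn hl
  have hμ := hsub (show (μ : ℝ) ∈ Set.Ioo l r from ⟨hμ1, hμ2.trans hr⟩)
  obtain ⟨⟨g1, g2⟩, g3⟩ := hμ
  refine ⟨μ, ?_, ?_, ?_⟩
  · have : (μ : ℝ) ^ 2 < m := by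
      rw [← hs2]
      exact pow_lt_pow_left₀ hμ2 g3.le two_ne_zero
    rw [hmdef] at this
    exact_mod_cast this
  · exact_mod_cast g1
  · rw [hmdef] at g2
    exact_mod_cast g2

theorem signs (A : ℚ) : ∃ δ₁ δ₂ : ℚ, 0 < δ₁ ∧ 0 < δ₂ ∧
    δ₂ ^ 2 - (2 * A - 6) * δ₂ + -3 * (A ^ 2 - 2 * A + 9) < 0 ∧
    (∀ x : ℚ, x ≤ -δ₂ → 0 < PA A (1 - x / 3)) ∧
    (∀ x : ℚ, -δ₁ ≤ x → x < 0 → PA A (1 - x / 3) < 0) := by
  obtain ⟨δ₁, hδ₁, hneg⟩ := sg_neg A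
  obtain ⟨μ, h1, h2, h3⟩ := sg_mu A
  refine ⟨δ₁, A + 2 * μ - 3, hδ₁, h2, ?_, fun x hx => ?_, hneg⟩
  · have : (A + 2 * μ - 3) ^ 2 - (2 * A - 6) * (A + 2 * μ - 3) + -3 * (A ^ 2 - 2 * A + 9) =
        4 * (μ ^ 2 - (A ^ 2 - 3 * A + 9)) := by ring
    rw [this]
    linarith
  · have e : (1 : ℚ) - x / 3 = 1 + (-x / 3) := by ring
    rw [e]
    refine sg_mono (u0 := (A + 2 * μ - 3) / 3) (by linarith) (by linarith) ?_
    have : PA A (1 + (A + 2 * μ - 3) / 3) =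
        (8 * μ ^ 3 - 6 * (A ^ 2 - 3 * A + 9) * μ - (2 * A - 3) * (A ^ 2 - 3 * A + 9)) / 27 := by
      unfold PA; ring
    rw [this]
    positivity

end H40.Sq
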