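import Pool.Agent.helper40.Sq.Ind3
import Pool.Agent.helper40.Sq.Base
import Pool.Agent.helper40.Sq.Eng
import Pool.Agent.helper40.Sq.Signs
import Pool.Agent.helper79.Tw.Transfer

set_option autoImplicit false

/-!
# Infinitely many twists of rank at least three of `y^2 = x^3 - A x^2 + (A - 3) x + 1`
-/

namespace H40.Sq

open WeierstrassCurve WeierstrassCurve.Affine H48.CN H79.Tw Height

/-- the squarefree twists with three independent points -/
def RA (A : ℚ) : Set ℤ :=
  {N : ℤ | Squarefree N ∧ ∃ P : Fin 3 → (TG (-A) (A - 3) 1 (N : ℚ)).Point, LinearIndependent ℤ P}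

/-- the polynomial `PA A (1 - x / 3)` -/
noncomputable def fA (A : ℚ) : Polynomial ℚ :=
  (1 - Polynomial.C (1 / 3) * Polynomial.X) ^ 3 +
    Polynomial.C (-A) * (1 - Polynomial.C (1 / 3) * Polynomial.X) ^ 2 +
    Polynomial.C (A - 3) * (1 - Polynomial.C (1 / 3) * Polynomial.X) + 1

theorem fA_eval (A x : ℚ) : (fA A).eval x = PA A (1 - x / 3) := by
  unfold fA PA
  simp only [Polynomial.eval_add, Polynomial.eval_mul, Polynomial.eval_pow, Polynomial.eval_sub,
    Polynomial.eval_one, Polynomial.eval_C, Polynomial.eval_X]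
  ring

theorem RA_infinite {A : ℚ} (hA : A ≠ 0) (h2 : A.num ≠ 2) (h2' : A.num ≠ -2) (h6 : A.num ≠ 6)
    (h6' : A.num ≠ -6) (h32 : A ≠ 3 / 2) : (RA A).Infinite := by
  obtain ⟨H, hH⟩ := indep3 A
  obtain ⟨δ₁, δ₂, hδ₁, hδ₂, hq, hpos, hneg⟩ := signs A
  have hinf := base_inf hA h2 h2' h6 h6'
  have hb : -3 * (A ^ 2 - 2 * A + 9) < 0 := by nlinarith [sq_nonneg (A - 1)]
  have hf0 : (fA A).eval (-3) ≠ 0 := by
    rw [fA_eval]
    have : PA A (1 - -3 / 3) = 3 - 2 * A := by unfold PA; ring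
    rw [this]
    intro h
    apply h32
    linarith
  have hne : fA A ≠ 0 := by
    intro h
    rw [h] at hf0
    simp at hf0
  refine engine hb hδ₁ hδ₂ ?_ (base_ns hA) (by norm_num) hinf (fA A) hf0 ?_ ?_ _
    ({x : ℚ | logHeight₁ (-x / 3) ≤ 2 * H} ∪ {x : ℚ | (fA A).eval x = 0}) ?_ ?_
  · exact hq
  · intro x hx _
    rw [fA_eval]
    exact hpos x hx
  · intro x hx hx'
    rw [fA_eval]
    exact hneg x hx hx'
  · refine Set.Finite.union ?_ ?_
    · have hfin := NumberField.finite_setOfPred_logHeight₁_le (K := ℚ) (2 * H)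
      refine hfin.preimage (f := fun x : ℚ => -x / 3) ?_
      intro x _ y _ hxy
      have h1 : -x / 3 = -y / 3 := hxy
      linarith
    · exact (fA A).roots.toFinset.finite_toSet.subset (by
        intro x hx
        simp only [Finset.mem_coe, Multiset.mem_toFinset]
        exact (Polynomial.mem_roots hne).2 hx)
  · intro k x y h hk hx
    obtain ⟨v, w, hv, hxv, hw⟩ := base_odd hA hinf k x y h hk
    rw [Set.mem_union, not_or] at hx
    obtain ⟨hx1, hx2⟩ := hx
    have hx1' : 2 * H < logHeight₁ (-x / 3) := by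
      by_contra hcon
      exact hx1 (not_lt.1 hcon)
    have hvH : H < logHeight₁ v := by
      have e : -x / 3 = v ^ 2 := by rw [hxv]; ring
      rw [e, logHeight₁_pow] at hx1'
      push_cast at hx1'
      linarith
    have hfx : (fA A).eval x = PA A (1 + v ^ 2) := by
      rw [fA_eval, hxv]
      congr 1
      ring
    have hne0 : PA A (1 + v ^ 2) ≠ 0 := by
      rw [← hfx]
      exact hx2
    obtain ⟨N, t, hN, ht, hNt⟩ := exists_sqfree hne0
    have hN0 : (N : ℚ) ≠ 0 := by exact_mod_cast hN.ne_zero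
    exact ⟨N, ⟨hN, hH N t v w hN0 ht hv hNt hw hvH⟩, t, ht, hN.ne_zero, by rw [hfx, hNt]⟩

end H40.Sq
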