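import Mathlib

set_option autoImplicit false

/-!
# SQ-Hgt: the height of an element integral over the polynomials in `s`

PROOF. Choose a positive integer `m` with `m * (P j).coeff i` an integer for all `j`, `i`
(`IsLocalization.exist_integer_multiples`, see `helper78/Tw/A.lean`, `height_root_le`, whose proof is
the model for everything here). Let `s = p / q` in lowest terms, `H = max |p| q`, and `X = m q V`.
Multiply the relation by `(m q)^d`: `X^d + ∑ j, (m q)^(d - j) P_j(s) X^j = 0`, and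
`(m q)^(d - j) P_j(s) = m^(d-j-1) ∑ i ≤ d - j, (m * coeff i) p^i q^(d - j - i)` is an integer of
absolute value at most `K H^(d - j)` (here `d - j ≥ 1` and `natDegree (P j) ≤ d - j`). So `X` is an
integer (a rational root of a monic integral polynomial: `IsIntegrallyClosed` / `num_dvd..`, or as in
`height_root_le`: the denominator of `X` divides the leading coefficient `1`).
Cauchy bound: `|X| ≤ (d K + 1) H`: if `|X| ≥ H` (else clear; `K ≥ 0`) then
`|X|^d ≤ ∑ j < d, K H^(d-j) |X|^j ≤ d K H |X|^(d-1)`, so `|X| ≤ d K H`.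
First claim: `V = X / (m q)` has height at most `log (max |X| |m q|) ≤ log H + log (m (d K + 1))`
(`Rat.logHeight₁_eq_log_max` for the reduced fraction: numerator and denominator of `V` divide `X`
and `m q`, e.g. `Rat.num_div_den`, `Rat.divInt`; or `logHeight₁_div_eq_logHeight` with the height of
the vector `![X, m q]` of integers bounded by `log max`).
Second claim: `V / s = X / (m p)` for `p ≠ 0`, the same bound.
`d = 0` is allowed and trivial: the relation is `1 + 0 = 0`.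
-/

namespace H40.Sq

open Height Finset

/-- a rational root of a monic integral polynomial -/
private theorem hgt_root (d : ℕ) (c : Fin d → ℤ) (X : ℚ)
    (h : X ^ d + ∑ j : Fin d, (c j : ℚ) * X ^ (j : ℕ) = 0) : ∃ x : ℤ, (x : ℚ) = X := by
  have hp : (Polynomial.X ^ d + ∑ j : Fin d, Polynomial.C (c j) * Polynomial.X ^ (j : ℕ) :
      Polynomial ℤ).Monic := Polynomial.monic_X_pow_add (Polynomial.degree_sum_fin_lt c)
  have hr : Polynomial.aeval X (Polynomial.X ^ d +
      ∑ j : Fin d, Polynomial.C (c j) * Polynomial.X ^ (j : ℕ) : Polynomial ℤ) = 0 := by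
    rw [map_add, map_sum, map_pow, Polynomial.aeval_X, ← h]
    congr 1
    refine Finset.sum_congr rfl fun j _ => ?_
    rw [map_mul, map_pow, Polynomial.aeval_X, Polynomial.aeval_C]
    simp
  obtain ⟨x, hx⟩ := isInteger_of_is_root_of_monic hp hr
  exact ⟨x, by simpa using hx⟩

/-- Cauchy's bound -/
private theorem hgt_cauchy (d : ℕ) (c : Fin d → ℤ) (x : ℤ) (H : ℝ) (hH : 1 ≤ H) (K : Fin d → ℝ)
    (hK : ∀ j, 0 ≤ K j) (hc : ∀ j, |(c j : ℝ)| ≤ K j * H ^ (d - (j : ℕ)))
    (h : (x : ℝ) ^ d + ∑ j : Fin d, (c j : ℝ) * (x : ℝ) ^ (j : ℕ) = 0) :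
    |(x : ℝ)| ≤ (∑ j, K j + 1) * H := by
  have hS : 0 ≤ ∑ j, K j := Finset.sum_nonneg fun j _ => hK j
  have hH0 : 0 < H := by linarith
  rcases le_or_gt |(x : ℝ)| H with h1 | h1
  · nlinarith
  · have hx0 : 0 < |(x : ℝ)| := by linarith
    have hd : d ≠ 0 := by
      rintro rfl
      simp at h
    have h2 : |(x : ℝ)| ^ d ≤ (∑ j, K j) * H * |(x : ℝ)| ^ (d - 1) := by
      have e : (x : ℝ) ^ d = -∑ j : Fin d, (c j : ℝ) * (x : ℝ) ^ (j : ℕ) := by linarith
      rw [← abs_pow, e, abs_neg, Finset.sum_mul, Finset.sum_mul]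
      refine (Finset.abs_sum_le_sum_abs _ _).trans (Finset.sum_le_sum fun j _ => ?_)
      have hj : (j : ℕ) < d := j.2
      have e1 : H ^ (d - (j : ℕ)) = H * H ^ (d - 1 - (j : ℕ)) := by
        rw [← pow_succ']
        congr 1
        omega
      have e2 : |(x : ℝ)| ^ (d - 1) = |(x : ℝ)| ^ (d - 1 - (j : ℕ)) * |(x : ℝ)| ^ (j : ℕ) := by
        rw [← pow_add]
        congr 1
        omega
      rw [abs_mul, abs_pow]
      calc |(c j : ℝ)| * |(x : ℝ)| ^ (j : ℕ)
          ≤ K j * H ^ (d - (j : ℕ)) * |(x : ℝ)| ^ (j : ℕ) :=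
            mul_le_mul_of_nonneg_right (hc j) (by positivity)
        _ = K j * H * (H ^ (d - 1 - (j : ℕ)) * |(x : ℝ)| ^ (j : ℕ)) := by rw [e1]; ring
        _ ≤ K j * H * (|(x : ℝ)| ^ (d - 1 - (j : ℕ)) * |(x : ℝ)| ^ (j : ℕ)) := by
            apply mul_le_mul_of_nonneg_left _ (mul_nonneg (hK j) hH0.le)
            apply mul_le_mul_of_nonneg_right _ (by positivity)
            exact pow_le_pow_left₀ hH0.le h1.le _
        _ = K j * H * |(x : ℝ)| ^ (d - 1) := by rw [e2]
    have h3 : |(x : ℝ)| ^ d = |(x : ℝ)| * |(x : ℝ)| ^ (d - 1) := by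
      rw [← pow_succ']
      congr 1
      omega
    rw [h3] at h2
    have h4 := le_of_mul_le_mul_right h2 (by positivity)
    nlinarith

private theorem hgt_frac (x y : ℤ) (hy : y ≠ 0) (M : ℝ) (hx : |(x : ℝ)| ≤ M)
    (hyM : |(y : ℝ)| ≤ M) : logHeight₁ ((x : ℚ) / y) ≤ Real.log M := by
  have e : ((x : ℚ) / y) = Rat.divInt x y := (Rat.divInt_eq_div x y).symm
  rw [Rat.logHeight₁_eq_log_max, e]
  have h1 := Rat.num_dvd x hy
  have h2 := Rat.den_dvd x y
  have hy1 : (1 : ℝ) ≤ |(y : ℝ)| := by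
    have : (1 : ℤ) ≤ |y| := Int.one_le_abs hy
    exact_mod_cast this
  have hpos : (0 : ℝ) < ((max (Rat.divInt x y).num.natAbs (Rat.divInt x y).den : ℕ) : ℝ) := by
    have : 1 ≤ max (Rat.divInt x y).num.natAbs (Rat.divInt x y).den :=
      le_max_of_le_right (Rat.divInt x y).den_pos
    exact_mod_cast this
  apply Real.log_le_log hpos
  rw [Nat.cast_max]
  refine max_le ?_ ?_
  · rcases eq_or_ne x 0 with rfl | hx0
    · have : (Rat.divInt 0 y).num = 0 := by simp
      rw [this]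
      simp only [Int.natAbs_zero, Nat.cast_zero]
      linarith
    · have h3 : (Rat.divInt x y).num.natAbs ≤ x.natAbs :=
        Nat.le_of_dvd (Int.natAbs_pos.2 hx0) (Int.natAbs_dvd_natAbs.2 h1)
      have h4 : (x.natAbs : ℝ) = |(x : ℝ)| := by rw [Nat.cast_natAbs, Int.cast_abs]
      have h5 : ((Rat.divInt x y).num.natAbs : ℝ) ≤ x.natAbs := by exact_mod_cast h3
      linarith
  · have h3 : (Rat.divInt x y).den ≤ y.natAbs := by
      apply Nat.le_of_dvd (Int.natAbs_pos.2 hy)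
      exact Int.natCast_dvd.1 h2
    have h4 : (y.natAbs : ℝ) = |(y : ℝ)| := by rw [Nat.cast_natAbs, Int.cast_abs]
    have h5 : ((Rat.divInt x y).den : ℝ) ≤ y.natAbs := by exact_mod_cast h3
    linarith

theorem height_monic (d : ℕ) (P : Fin d → Polynomial ℚ) (hP : ∀ j, (P j).natDegree ≤ d - j) :
    ∃ C : ℝ, ∀ V s : ℚ, V ^ d + ∑ j : Fin d, (P j).eval s * V ^ (j : ℕ) = 0 →
      logHeight₁ V ≤ logHeight₁ s + C ∧ (s ≠ 0 → logHeight₁ (V / s) ≤ logHeight₁ s + C) := by
  classical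
  obtain ⟨b, hb⟩ := IsLocalization.exist_integer_multiples (nonZeroDivisors ℤ)
    (Finset.univ ×ˢ Finset.range (d + 1)) (fun ji : Fin d × ℕ => (P ji.1).coeff ji.2)
  set m : ℤ := (b : ℤ) with hm
  have hm0 : m ≠ 0 := nonZeroDivisors.ne_zero b.2
  have hmQ : (m : ℚ) ≠ 0 := by exact_mod_cast hm0
  have hex : ∀ (j : Fin d) (i : ℕ), ∃ z : ℤ, i ≤ d → (z : ℚ) = m * (P j).coeff i := by
    intro j i
    by_cases hi : i ≤ d
    · obtain ⟨z, hz⟩ := hb (j, i) (Finset.mem_product.2 ⟨Finset.mem_univ _,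
        Finset.mem_range.2 (by omega)⟩)
      refine ⟨z, fun _ => ?_⟩
      rw [zsmul_eq_mul] at hz
      exact hz
    · exact ⟨0, fun h => absurd h hi⟩
  choose A hA using hex
  have hm1 : (1 : ℝ) ≤ |(m : ℝ)| := by
    have : (1 : ℤ) ≤ |m| := Int.one_le_abs hm0
    exact_mod_cast this
  set K : Fin d → ℝ := fun j => |(m : ℝ)| ^ d * ∑ i ∈ range (d + 1), |(A j i : ℝ)| with hK
  have hK0 : ∀ j, 0 ≤ K j := fun j =>
    mul_nonneg (by positivity) (Finset.sum_nonneg fun i _ => abs_nonneg _)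
  have hS : 0 ≤ ∑ j, K j := Finset.sum_nonneg fun j _ => hK0 j
  refine ⟨Real.log ((∑ j, K j + 1) * |(m : ℝ)|), fun V s hsum => ?_⟩
  set p : ℤ := s.num with hp
  set q : ℕ := s.den with hq
  have hq0 : (q : ℚ) ≠ 0 := by exact_mod_cast s.den_ne_zero
  have hq1 : 1 ≤ q := s.den_pos
  have hs : s = p / q := (Rat.num_div_den s).symm
  set H : ℕ := max p.natAbs q with hH
  have hH1 : 1 ≤ H := le_max_of_le_right hq1
  have hH1' : (1 : ℝ) ≤ H := by exact_mod_cast hH1
  have hpH : |(p : ℝ)| ≤ H := by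
    have : (p.natAbs : ℝ) = |(p : ℝ)| := by
      rw [Nat.cast_natAbs, Int.cast_abs]
    rw [← this]
    exact_mod_cast le_max_left _ _
  have hqH : (q : ℝ) ≤ H := by exact_mod_cast le_max_right _ _
  -- the integral coefficients
  let c : Fin d → ℤ := fun j => m ^ (d - 1 - (j : ℕ)) *
    ∑ i ∈ range (d - (j : ℕ) + 1), A j i * p ^ i * (q : ℤ) ^ (d - (j : ℕ) - i)
  have hc : ∀ j : Fin d, (c j : ℚ) = (m * q) ^ (d - (j : ℕ)) * (P j).eval s := by
    intro j
    have hj : (j : ℕ) < d := j.2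
    rw [Polynomial.eval_eq_sum_range' (Nat.lt_succ_of_le (hP j)), Finset.mul_sum]
    simp only [c]
    rw [Int.cast_mul, Int.cast_sum, Finset.mul_sum]
    refine Finset.sum_congr rfl fun i hi => ?_
    have hi' : i ≤ d - (j : ℕ) := by
      have := Finset.mem_range.1 hi
      omega
    push_cast
    rw [hA j i (by omega), hs, div_pow, mul_pow]
    have e1 : (q : ℚ) ^ (d - (j : ℕ)) = q ^ (d - (j : ℕ) - i) * q ^ i := by
      rw [← pow_add, Nat.sub_add_cancel hi']
    have e2 : (m : ℚ) ^ (d - (j : ℕ)) = m ^ (d - 1 - (j : ℕ)) * m := by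
      rw [← pow_succ]
      congr 1
      omega
    rw [e1, e2]
    field_simp
  have hrel : (m * q * V : ℚ) ^ d + ∑ j : Fin d, (c j : ℚ) * (m * q * V) ^ (j : ℕ) = 0 := by
    have e : (m * q * V : ℚ) ^ d + ∑ j : Fin d, (c j : ℚ) * (m * q * V) ^ (j : ℕ) =
        (m * q) ^ d * (V ^ d + ∑ j : Fin d, (P j).eval s * V ^ (j : ℕ)) := by
      rw [mul_add, mul_pow, Finset.mul_sum]
      congr 1
      refine Finset.sum_congr rfl fun j _ => ?_
      have hj : (j : ℕ) ≤ d := j.2.le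
      have e1 : (m * q : ℚ) ^ d = (m * q) ^ (d - (j : ℕ)) * (m * q) ^ (j : ℕ) := by
        rw [← pow_add, Nat.sub_add_cancel hj]
      rw [hc j, e1, mul_pow]
      ring
    rw [e, hsum, mul_zero]
  obtain ⟨x, hx⟩ := hgt_root d c _ hrel
  have hrelR : (x : ℝ) ^ d + ∑ j : Fin d, (c j : ℝ) * (x : ℝ) ^ (j : ℕ) = 0 := by
    rw [← hx] at hrel
    have : x ^ d + ∑ j : Fin d, c j * x ^ (j : ℕ) = 0 := by exact_mod_cast hrel
    exact_mod_cast this
  have hcB : ∀ j, |(c j : ℝ)| ≤ K j * (H : ℝ) ^ (d - (j : ℕ)) := by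
    intro j
    have hj : (j : ℕ) < d := j.2
    simp only [c, hK]
    push_cast
    rw [abs_mul, abs_pow, mul_assoc]
    refine mul_le_mul (pow_le_pow_right₀ hm1 (by omega)) ?_ (abs_nonneg _) (by positivity)
    refine (Finset.abs_sum_le_sum_abs _ _).trans ?_
    have h1 : ∑ i ∈ range (d - (j : ℕ) + 1), |(A j i : ℝ) * (p : ℝ) ^ i *
        (q : ℝ) ^ (d - (j : ℕ) - i)| ≤
        ∑ i ∈ range (d - (j : ℕ) + 1), |(A j i : ℝ)| * (H : ℝ) ^ (d - (j : ℕ)) := by
      refine Finset.sum_le_sum fun i hi => ?_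
      have hi' : i ≤ d - (j : ℕ) := by
        have := Finset.mem_range.1 hi
        omega
      rw [abs_mul, abs_mul, abs_pow, abs_pow, Nat.abs_cast, mul_assoc]
      refine mul_le_mul_of_nonneg_left ?_ (abs_nonneg _)
      calc |(p : ℝ)| ^ i * (q : ℝ) ^ (d - (j : ℕ) - i)
          ≤ (H : ℝ) ^ i * (H : ℝ) ^ (d - (j : ℕ) - i) := by gcongr
        _ = (H : ℝ) ^ (d - (j : ℕ)) := by rw [← pow_add, Nat.add_sub_cancel' hi']
    refine h1.trans ?_
    rw [← Finset.sum_mul]
    refine mul_le_mul_of_nonneg_right ?_ (by positivity)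
    refine Finset.sum_le_sum_of_subset_of_nonneg ?_ fun i _ _ => abs_nonneg _
    intro i hi
    rw [Finset.mem_range] at hi ⊢
    omega
  have hxB := hgt_cauchy d c x H hH1' K hK0 hcB hrelR
  have hM1 : |(x : ℝ)| ≤ (∑ j, K j + 1) * |(m : ℝ)| * H := by
    refine hxB.trans ?_
    have : 0 ≤ (∑ j, K j + 1) * (H : ℝ) := by positivity
    nlinarith
  have hM2 : |(m : ℝ)| * H ≤ (∑ j, K j + 1) * |(m : ℝ)| * H := by
    have : 0 ≤ |(m : ℝ)| * (H : ℝ) := by positivity
    nlinarith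
  have hlog : Real.log ((∑ j, K j + 1) * |(m : ℝ)| * H) =
      logHeight₁ s + Real.log ((∑ j, K j + 1) * |(m : ℝ)|) := by
    rw [Rat.logHeight₁_eq_log_max, Real.log_mul (by positivity) (by positivity), add_comm]
  constructor
  · have e : V = (x : ℚ) / ((m * q : ℤ) : ℚ) := by
      rw [hx]
      push_cast
      field_simp
    rw [← hlog, e]
    apply hgt_frac
    · exact mul_ne_zero hm0 (by exact_mod_cast s.den_ne_zero)
    · exact hM1
    · refine le_trans ?_ hM2
      push_cast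
      rw [abs_mul, Nat.abs_cast]
      gcongr
  · intro hs0
    have hp0 : p ≠ 0 := Rat.num_ne_zero.2 hs0
    have hpQ : (p : ℚ) ≠ 0 := by exact_mod_cast hp0
    have e : V / s = (x : ℚ) / ((m * p : ℤ) : ℚ) := by
      rw [hx, hs]
      push_cast
      field_simp
    rw [← hlog, e]
    apply hgt_frac
    · exact mul_ne_zero hm0 hp0
    · exact hM1
    · refine le_trans ?_ hM2
      push_cast
      rw [abs_mul]
      gcongr

end H40.Sq
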