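import Pool.Agent.helper40.Sq.Defs
import Pool.Agent.helper40.Sq.Hgt
import Pool.Agent.helper78.Tw.A

set_option autoImplicit false

/-!
# SQ-HPts: the heights of the three points

PROOFS. `ht_P1`: `H78.Tw.height_quad` with `(a, b, c, d, e, f) = (1, 0, 1, 0, 0, 1)`.
`ht_P2`: `height_quad` with `(0, 0, -1, 1, 0, 0)`.
`ht_P3`: put `z = 1 + v^2`, `x = xx A v w`. By `xx_rel`,
`x^2 + (z - A) x + (z^2 - A z + A - 3) = 0`, a relation symmetric in `x` and `z`:
`z^2 + (x - A) z + (x^2 - A x + A - 3) = 0`. `height_monic` with `d = 2`,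
`P 0 = X^2 - A X + (A - 3)` (degree 2), `P 1 = X - A` (degree 1), applied to `(V, s) = (x, z)` and to
`(z, x)`: `|h x - h z| ≤ C`; then `ht_P1`.
-/

namespace H40.Sq

open Height

theorem ht_P1 : ∃ C : ℝ, ∀ v : ℚ, |logHeight₁ (1 + v ^ 2) - 2 * logHeight₁ v| ≤ C := by
  obtain ⟨C, hC⟩ := H78.Tw.height_quad (a := 1) (b := 0) (c := 1) (d := 0) (e := 0) (f := 1)
    (by norm_num)
  refine ⟨C, fun v => ?_⟩
  have h := hC v (by norm_num)
  have e : (1 * v ^ 2 + 0 * v + 1) / (0 * v ^ 2 + 0 * v + 1) = 1 + v ^ 2 := by ring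
  rw [e] at h
  exact h

theorem ht_P2 : ∃ C : ℝ, ∀ v : ℚ, v ≠ 0 → |logHeight₁ (-1 / v ^ 2) - 2 * logHeight₁ v| ≤ C := by
  obtain ⟨C, hC⟩ := H78.Tw.height_quad (a := 0) (b := 0) (c := -1) (d := 1) (e := 0) (f := 0)
    (by norm_num)
  refine ⟨C, fun v hv => ?_⟩
  have h := hC v (by
    have : v ^ 2 ≠ 0 := pow_ne_zero 2 hv
    simpa using this)
  have e : (0 * v ^ 2 + 0 * v + -1) / (1 * v ^ 2 + 0 * v + 0) = -1 / v ^ 2 := by
    congr 1 <;> ring
  rw [e] at h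
  exact h

private theorem sqh_pair (A : ℚ) : ∃ C : ℝ, ∀ x z : ℚ,
    x ^ 2 - (A - z) * x + (z ^ 2 - A * z + A - 3) = 0 → logHeight₁ x ≤ logHeight₁ z + C := by
  obtain ⟨C, hC⟩ := height_monic 2
    ![Polynomial.X ^ 2 - Polynomial.C A * Polynomial.X + Polynomial.C (A - 3),
      Polynomial.X - Polynomial.C A] (by
    intro j
    fin_cases j
    · simp only [Fin.zero_eta, Fin.isValue, Matrix.cons_val_zero, Nat.sub_zero]
      compute_degree
    · simp only [Fin.mk_one, Fin.isValue, Matrix.cons_val_one, Matrix.cons_val_fin_one]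
      compute_degree)
  refine ⟨C, fun x z h => (hC x z ?_).1⟩
  rw [Fin.sum_univ_two]
  simp only [Matrix.cons_val_zero, Matrix.cons_val_one, Matrix.cons_val_fin_one,
    Polynomial.eval_add, Polynomial.eval_sub, Polynomial.eval_mul, Polynomial.eval_pow,
    Polynomial.eval_X, Polynomial.eval_C, Fin.val_zero, Fin.val_one]
  linear_combination h

theorem ht_P3 (A : ℚ) : ∃ C : ℝ, ∀ v w : ℚ, w ^ 2 = QA A v →
    |logHeight₁ (xx A v w) - 2 * logHeight₁ v| ≤ C := by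
  obtain ⟨C1, hC1⟩ := ht_P1
  obtain ⟨C2, hC2⟩ := sqh_pair A
  refine ⟨C1 + C2, fun v w hw => ?_⟩
  have h1 := xx_rel hw
  have h2 : logHeight₁ (xx A v w) ≤ logHeight₁ (1 + v ^ 2) + C2 := hC2 _ _ (by
    linear_combination h1)
  have h3 : logHeight₁ (1 + v ^ 2) ≤ logHeight₁ (xx A v w) + C2 := hC2 _ _ (by
    linear_combination h1)
  have h4 := abs_le.1 (hC1 v)
  rw [abs_le]
  constructor
  · linarith [h4.1, h4.2]
  · linarith [h4.1, h4.2]

end H40.Sq
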