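import Pool.Agent.helper40.Sq.Defs
import Pool.Agent.helper40.Sq.Hgt
import Pool.Agent.helper78.Tw.A

set_option autoImplicit false

/-!
# SQ-P23: lower bound for the heights of `P2 + P3` and `P2 - P3`

`P2 = mk (-1/v^2) (t/v^3)`, `P3 = mk (xx A v w) t`. Put `x = xx A v w`, `z = 1 + v^2`,
`D = PA A z = N t^2`.

`R23` is the minimal polynomial of `s = x(P2 + P3)` over `ℚ(v)`: it has degree `8` in `v`, and the
coefficients of `v^8`, `v^7` are `s^2`, `2 s^2 - 2 s`.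

`R23_eq` (algebra): let `s v^2 (1 + x v^2)^2 = D (1 - v^3)^2 + (A v^2 + 1 - x v^2) (1 + x v^2)^2`.
Modulo `x^2 = S1 x - S2`, `S1 = A - z`, `S2 = z^2 - A z + A - 3` (`xx_rel`), this reads
`U + V x = 0` with `U = s v^2 a0 - b0`, `V = s v^2 a1 - b1` and
`a0 = A v^6 - v^8 - 2 v^6 + 2 v^4 + 1`, `a1 = A v^4 - v^6 - v^4 + 2 v^2`,
`b0 = 2 A v^7 - A v^6 + 2 A v^5 - A v^4 - 2 v^9 + v^8 - 6 v^7 + 4 v^6 + v^4 + 2 v^3`,
`b1 = A v^6 + A v^4 - 2 v^6 + v^4 + v^2`.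
And `U^2 + U V S1 + V^2 S2 = v^4 (v - 1)^2 D R23` (polynomial identity, `ring`), while
`U^2 + U V S1 + V^2 S2 = (U - V x + V S1) (U + V x) + V^2 (x^2 - S1 x + S2) = 0`.
So `R23 A v s = 0` if `v ≠ 0`, `v ≠ 1`, `D ≠ 0`.

`ht_R23`: multiply `R23 A v s = 0` by `s^6`, put `V = v s`:
`V^8 + (2 s - 2) V^7 + q6 V^6 + s q5 V^5 + s^2 q4 V^4 + s^3 q3 V^3 + s^4 q2 V^2 + s^5 q1 V + s^6 q0 = 0`
where `q_j` is the coefficient of `v^j` in `R23`, of degree at most `2` in `s`: `height_monic`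
(`d = 8`, second claim) gives `h v ≤ h s + C` for `s ≠ 0`. If `s = 0`: `R23 A v 0 = 4 v^6 + ... = 0`
and `H78.Tw.height_root_le` (`d = 6`, `e = 0`, leading coefficient `4`) bounds `h v`, so with `H` at
least this bound `s = 0` does not occur.

`sum23`: `hh_add_of_ne` with `y₁ = t/v^3`, `y₂ = t`, `x₁ = -1/v^2`, `x₂ = x`: they differ, since
otherwise `N (t/v^3)^2 = N t^2` (`e2`, `e3`), so `v^6 = 1`, `v = ± 1` of height `0 ≤ H` (take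
`H ≥ 0`; `t ≠ 0`). `s = N ((t/v^3 - t) / (-1/v^2 - x))^2 + A + 1/v^2 - x` satisfies the hypothesis of
`R23_eq` (`N t^2 = D`; `1 + x v^2 ≠ 0`).
For the difference: `P2 - P3 = -(P3 + P2')` with `P2' = mk (-1/(-v)^2) (t/(-v)^3) = -P2`, that is
`hh (P2 - P3) = hh (P2' + P3)` (`hh_neg`), and `xx A (-v) w = xx A v w`, `QA A (-v) = QA A v`,
`(-v)^2 = v^2`: apply the first part to `-v` (`logHeight₁_neg`).
-/

namespace H40.Sq

open WeierstrassCurve WeierstrassCurve.Affine H48.CN H79.Tw Height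

/-- the minimal polynomial of the abscissa of `P2 + P3` -/
def R23 (A v s : ℚ) : ℚ :=
  s ^ 2 * (v ^ 8 + 2 * v ^ 7 + (4 - A) * v ^ 6 + (6 - 2 * A) * v ^ 5 + (3 - 2 * A) * v ^ 4 -
    2 * A * v ^ 3 - (A + 1) * v ^ 2 - 2 * v - 1) +
  s * (-2 * v ^ 7 + (A - 5) * v ^ 6 + (2 * A - 12) * v ^ 5 + (-A ^ 2 + 6 * A - 15) * v ^ 4 +
    (6 * A - 12) * v ^ 3 + (2 * A - 3) * v ^ 2 + (2 * A + 2) * v + (A - 1)) +
  (4 * v ^ 6 + 2 * A * v ^ 5 + (A ^ 2 - 5 * A + 15) * v ^ 4 + 12 * v ^ 3 +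
    (A ^ 2 - 3 * A + 9) * v ^ 2 + (6 - 2 * A) * v + 2)

theorem R23_eq {A v w s : ℚ} (hv : v ≠ 0) (hv1 : v ≠ 1) (hw : w ^ 2 = QA A v)
    (hD : PA A (1 + v ^ 2) ≠ 0)
    (hs : s * (v ^ 2 * (1 + xx A v w * v ^ 2) ^ 2) = PA A (1 + v ^ 2) * (1 - v ^ 3) ^ 2 +
      (A * v ^ 2 + 1 - xx A v w * v ^ 2) * (1 + xx A v w * v ^ 2) ^ 2) : R23 A v s = 0 := by
  have hr := xx_rel hw
  generalize xx A v w = x at hs hr
  have hUV : (s * v ^ 2 * (A * v ^ 6 - v ^ 8 - 2 * v ^ 6 + 2 * v ^ 4 + 1) -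
      (2 * A * v ^ 7 - A * v ^ 6 + 2 * A * v ^ 5 - A * v ^ 4 - 2 * v ^ 9 + v ^ 8 - 6 * v ^ 7 +
        4 * v ^ 6 + v ^ 4 + 2 * v ^ 3)) +
      (s * v ^ 2 * (A * v ^ 4 - v ^ 6 - v ^ 4 + 2 * v ^ 2) -
        (A * v ^ 6 + A * v ^ 4 - 2 * v ^ 6 + v ^ 4 + v ^ 2)) * x = 0 := by
    unfold PA at hs
    linear_combination hs - (v ^ 6 * x + (s * v ^ 6 - (A * v ^ 2 + 1) * v ^ 4 + 2 * v ^ 4 +
      v ^ 6 * (A - (1 + v ^ 2)))) * hr
  have key : v ^ 4 * (v - 1) ^ 2 * PA A (1 + v ^ 2) * R23 A v s = 0 := by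
    unfold PA R23
    linear_combination ((s * v ^ 2 * (A * v ^ 6 - v ^ 8 - 2 * v ^ 6 + 2 * v ^ 4 + 1) -
      (2 * A * v ^ 7 - A * v ^ 6 + 2 * A * v ^ 5 - A * v ^ 4 - 2 * v ^ 9 + v ^ 8 - 6 * v ^ 7 +
        4 * v ^ 6 + v ^ 4 + 2 * v ^ 3)) -
      (s * v ^ 2 * (A * v ^ 4 - v ^ 6 - v ^ 4 + 2 * v ^ 2) -
        (A * v ^ 6 + A * v ^ 4 - 2 * v ^ 6 + v ^ 4 + v ^ 2)) * x +
      (s * v ^ 2 * (A * v ^ 4 - v ^ 6 - v ^ 4 + 2 * v ^ 2) -
        (A * v ^ 6 + A * v ^ 4 - 2 * v ^ 6 + v ^ 4 + v ^ 2)) * (A - (1 + v ^ 2))) * hUV +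
      (s * v ^ 2 * (A * v ^ 4 - v ^ 6 - v ^ 4 + 2 * v ^ 2) -
        (A * v ^ 6 + A * v ^ 4 - 2 * v ^ 6 + v ^ 4 + v ^ 2)) ^ 2 * hr
  have h1 : v ^ 4 * (v - 1) ^ 2 * PA A (1 + v ^ 2) ≠ 0 :=
    mul_ne_zero (mul_ne_zero (pow_ne_zero 4 hv) (pow_ne_zero 2 (sub_ne_zero.2 hv1))) hD
  exact (mul_eq_zero.1 key).resolve_left h1

private theorem deg_qq (a b c : ℚ) (k : ℕ) :
    (Polynomial.X ^ k * (Polynomial.C a * Polynomial.X ^ 2 + Polynomial.C b * Polynomial.X +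
      Polynomial.C c)).natDegree ≤ k + 2 := by
  refine Polynomial.natDegree_mul_le.trans ?_
  have h1 : (Polynomial.X ^ k : Polynomial ℚ).natDegree ≤ k := by simp
  have h2 := Polynomial.natDegree_quadratic_le (a := a) (b := b) (c := c)
  omega

theorem ht_R23 (A : ℚ) : ∃ C H : ℝ, ∀ v s : ℚ, R23 A v s = 0 → H < logHeight₁ v →
    logHeight₁ v - C ≤ logHeight₁ s := by
  let q : ℚ → ℚ → ℚ → ℕ → Polynomial ℚ := fun a b c k =>
    Polynomial.X ^ k * (Polynomial.C a * Polynomial.X ^ 2 + Polynomial.C b * Polynomial.X +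
      Polynomial.C c)
  have hq : ∀ a b c k s, (q a b c k).eval s = s ^ k * (a * s ^ 2 + b * s + c) := by
    intro a b c k s
    simp [q]
  have hqd : ∀ a b c k, (q a b c k).natDegree ≤ k + 2 := fun a b c k => deg_qq a b c k
  let P : Fin 8 → Polynomial ℚ := ![q (-1) (A - 1) 2 6, q (-2) (2 * A + 2) (6 - 2 * A) 5,
    q (-(A + 1)) (2 * A - 3) (A ^ 2 - 3 * A + 9) 4, q (-2 * A) (6 * A - 12) 12 3,
    q (3 - 2 * A) (-A ^ 2 + 6 * A - 15) (A ^ 2 - 5 * A + 15) 2,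
    q (6 - 2 * A) (2 * A - 12) (2 * A) 1, q (4 - A) (A - 5) 4 0,
    Polynomial.C 2 * Polynomial.X + Polynomial.C (-2)]
  have hP : ∀ j, (P j).natDegree ≤ 8 - (j : ℕ) := by
    intro j
    fin_cases j
    · exact hqd _ _ _ 6
    · exact hqd _ _ _ 5
    · exact hqd _ _ _ 4
    · exact hqd _ _ _ 3
    · exact hqd _ _ _ 2
    · exact hqd _ _ _ 1
    · exact hqd _ _ _ 0
    · exact Polynomial.natDegree_linear_le
  obtain ⟨C, hC⟩ := height_monic 8 P hP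
  let P' : Fin (6 + 1) → Polynomial ℚ := ![Polynomial.C 2, Polynomial.C (6 - 2 * A),
    Polynomial.C (A ^ 2 - 3 * A + 9), Polynomial.C 12, Polynomial.C (A ^ 2 - 5 * A + 15),
    Polynomial.C (2 * A), Polynomial.C 4]
  have hP' : ∀ j, (P' j).natDegree ≤ 0 := by
    intro j
    fin_cases j <;> exact (Polynomial.natDegree_C _).le
  obtain ⟨C', hC'⟩ := H78.Tw.height_root_le 6 0 P' hP'
  refine ⟨C, C', fun v s h hH => ?_⟩
  by_cases hs : s = 0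
  · exfalso
    subst hs
    have h1 := hC' v 0 (by
      simp only [Fin.sum_univ_succ, Finset.univ_unique, Fin.default_eq_zero, P']
      simp [R23] at h ⊢
      linear_combination h) (by simp [P'])
    simp only [Nat.cast_zero, zero_mul, zero_add] at h1
    linarith
  · have h1 := (hC (v * s) s (by
      simp only [Fin.sum_univ_succ, Finset.univ_unique, Fin.default_eq_zero, P]
      simp [hq]
      unfold R23 at h
      linear_combination s ^ 6 * h)).2 hs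
    rw [mul_div_cancel_right₀ _ hs] at h1
    linarith

private theorem height_one_le {v : ℚ} (h : v ^ 6 = 1) : logHeight₁ v = 0 := by
  have h1 : (v - 1) * (v + 1) * (v ^ 4 + v ^ 2 + 1) = 0 := by linear_combination h
  have h2 : v ^ 4 + v ^ 2 + 1 ≠ 0 := by positivity
  rcases mul_eq_zero.1 ((mul_eq_zero.1 h1).resolve_right h2) with h3 | h3
  · have : v = 1 := by linarith
    rw [this]
    exact logHeight₁_one
  · have : v = -1 := by linarith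
    rw [this, logHeight₁_neg]
    exact logHeight₁_one

private theorem sum23_aux (A : ℚ) : ∃ C H : ℝ, 0 ≤ H ∧ ∀ (N t v w : ℚ) (hN : N ≠ 0) (_ : t ≠ 0)
    (_ : v ≠ 0) (_ : PA A (1 + v ^ 2) = N * t ^ 2) (_ : w ^ 2 = QA A v)
    (e2 : N * (t / v ^ 3) ^ 2 =
      (-1 / v ^ 2) ^ 3 + -A * (-1 / v ^ 2) ^ 2 + (A - 3) * (-1 / v ^ 2) + 1)
    (e3 : N * t ^ 2 = xx A v w ^ 3 + -A * xx A v w ^ 2 + (A - 3) * xx A v w + 1),
    H < logHeight₁ v →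
    logHeight₁ v - C ≤ hh N (mk (dsc_PA_ne A) hN (-1 / v ^ 2) (t / v ^ 3) e2 +
      mk (dsc_PA_ne A) hN (xx A v w) t e3) := by
  obtain ⟨C, H, hCH⟩ := ht_R23 A
  refine ⟨C, max H 0, le_max_right _ _, ?_⟩
  intro N t v w hN ht hv hD hw e2 e3 hH
  have hH0 : 0 < logHeight₁ v := (le_max_right _ _).trans_lt hH
  have hv6 : v ^ 6 ≠ 1 := by
    intro h
    rw [height_one_le h] at hH0
    exact lt_irrefl _ hH0
  have hne : -1 / v ^ 2 ≠ xx A v w := by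
    intro h
    rw [h, ← e3] at e2
    apply hv6
    have h2 : N * t ^ 2 ≠ 0 := mul_ne_zero hN (pow_ne_zero 2 ht)
    have h4 : N * (t / v ^ 3) ^ 2 = N * t ^ 2 / v ^ 6 := by
      rw [div_pow, ← pow_mul, mul_div_assoc]
    rw [h4, div_eq_iff (pow_ne_zero 6 hv)] at e2
    have h1 : N * t ^ 2 * (v ^ 6 - 1) = 0 := by linear_combination -e2
    have h3 := (mul_eq_zero.1 h1).resolve_left h2
    linarith
  have hv1 : v ≠ 1 := by
    rintro rfl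
    apply hv6
    norm_num
  rw [hh_add_of_ne _ _ hne]
  apply hCH _ _ _ ((le_max_left _ _).trans_lt hH)
  apply R23_eq hv hv1 hw
  · rw [hD]
    exact mul_ne_zero hN (pow_ne_zero 2 ht)
  · have hx : 1 + xx A v w * v ^ 2 ≠ 0 := by
      intro h
      apply hne
      rw [div_eq_iff (pow_ne_zero 2 hv)]
      linarith
    have hx' : -1 / v ^ 2 - xx A v w ≠ 0 := sub_ne_zero.2 hne
    rw [hD]
    generalize xx A v w = x at hx hx'
    obtain ⟨y, rfl⟩ : ∃ y : ℚ, x = (y - 1) / v ^ 2 := ⟨x * v ^ 2 + 1, by field_simp; ring⟩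
    have h0 : 1 + (y - 1) / v ^ 2 * v ^ 2 = y := by
      rw [div_mul_cancel₀ _ (pow_ne_zero 2 hv)]
      ring
    rw [h0] at hx
    rw [h0]
    have h1 : -1 / v ^ 2 - (y - 1) / v ^ 2 = -y / v ^ 2 := by
      rw [← sub_div]
      congr 1
      ring
    rw [h1]
    field_simp
    ring

theorem sum23 (A : ℚ) : ∃ C H : ℝ, ∀ (N t v w : ℚ) (hN : N ≠ 0) (_ : t ≠ 0) (_ : v ≠ 0)
    (_ : PA A (1 + v ^ 2) = N * t ^ 2) (_ : w ^ 2 = QA A v)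
    (e2 : N * (t / v ^ 3) ^ 2 =
      (-1 / v ^ 2) ^ 3 + -A * (-1 / v ^ 2) ^ 2 + (A - 3) * (-1 / v ^ 2) + 1)
    (e3 : N * t ^ 2 = xx A v w ^ 3 + -A * xx A v w ^ 2 + (A - 3) * xx A v w + 1),
    H < logHeight₁ v →
    logHeight₁ v - C ≤ hh N (mk (dsc_PA_ne A) hN (-1 / v ^ 2) (t / v ^ 3) e2 +
      mk (dsc_PA_ne A) hN (xx A v w) t e3) ∧
    logHeight₁ v - C ≤ hh N (mk (dsc_PA_ne A) hN (-1 / v ^ 2) (t / v ^ 3) e2 -
      mk (dsc_PA_ne A) hN (xx A v w) t e3) := by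
  obtain ⟨C, H, hH0, haux⟩ := sum23_aux A
  refine ⟨C, H, ?_⟩
  intro N t v w hN ht hv hD hw e2 e3 hH
  refine ⟨haux N t v w hN ht hv hD hw e2 e3 hH, ?_⟩
  have hx : xx A (-v) w = xx A v w := by unfold xx; rw [neg_sq]
  have e2' : N * (t / (-v) ^ 3) ^ 2 =
      (-1 / (-v) ^ 2) ^ 3 + -A * (-1 / (-v) ^ 2) ^ 2 + (A - 3) * (-1 / (-v) ^ 2) + 1 := by
    rw [neg_sq, ← e2]
    congr 1
    have : (-v) ^ 3 = -v ^ 3 := by ring
    rw [this, div_neg, neg_sq]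
  have e3' : N * t ^ 2 = xx A (-v) w ^ 3 + -A * xx A (-v) w ^ 2 + (A - 3) * xx A (-v) w + 1 := by
    rw [hx]
    exact e3
  have h := haux N t (-v) w hN ht (neg_ne_zero.2 hv) (by rw [neg_sq]; exact hD)
    (by
      rw [hw]
      unfold QA
      ring) e2' e3' (by rw [logHeight₁_neg]; exact hH)
  rw [logHeight₁_neg] at h
  have h2 : mk (dsc_PA_ne A) hN (-1 / (-v) ^ 2) (t / (-v) ^ 3) e2' =
      -mk (dsc_PA_ne A) hN (-1 / v ^ 2) (t / v ^ 3) e2 := by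
    rw [neg_mk, mk_inj]
    constructor
    · rw [neg_sq]
    · have : (-v) ^ 3 = -v ^ 3 := by ring
      rw [this, div_neg]
  have h3 : mk (dsc_PA_ne A) hN (xx A (-v) w) t e3' = mk (dsc_PA_ne A) hN (xx A v w) t e3 :=
    mk_inj.2 ⟨hx, rfl⟩
  rw [h2, h3] at h
  generalize mk (dsc_PA_ne A) hN (-1 / v ^ 2) (t / v ^ 3) e2 = P at h ⊢
  generalize mk (dsc_PA_ne A) hN (xx A v w) t e3 = Q at h ⊢
  have h4 : hh N (P - Q) = hh N (-P + Q) := by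
    rw [← hh_neg N (P - Q), neg_sub P Q, sub_eq_neg_add Q P]
  rw [h4]
  exact h

end H40.Sq
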