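import Pool.Agent.helper40.Sq.P12
import Pool.Agent.helper40.Sq.P23
import Pool.Agent.helper40.Sq.Dom

set_option autoImplicit false

/-!
# SQ-Ind3: for all but finitely many `v` the three points are independent

PROOF (model: `helper79/Tw/Indep3.lean`). `P1 = mk (1 + v^2) t (e1_of hD)`,
`P2 = mk (-1/v^2) (t/v^3) (e2_of hv hD)`, `P3 = mk (xx A v w) t (e3_of hw hD)`,
`P3' = mk (xx A v (-w)) t` (`(-w)^2 = w^2`). Write `h = hh N`, `L = 2 h v` (`ht_P1`, `ht_P2`, `ht_P3`:
`h(P_i) = L + O(1)`, also `h(P3') = L + O(1)`), constants `C_i` independent of `N, t, v, w`.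
* `P1 + P3 = -P3'`: the three points have the same second coordinate `t` and abscissae `z`, `x`,
  `x'` with `z + x + x' = A` (`z = 1 + v^2`). If `z ≠ x`: `mk_add_of_ne` (slope `0`):
  `P1 + P3` has abscissa `N * 0 + A - z - x = x'`, so `h(P1 + P3) = h(x') = L + O(1)`
  (`hh_add_of_ne`). If `z = x` then `P1 = P3`... this happens only for `v` a root of
  `QA A v = (3 z - A)^2`, that is `12 v^4 + ... = 0`: avoid it by taking `h v` large:
  `w = 2 x - (A - z) = 3 z - A` gives `(3 (1 + v^2) - A)^2 = QA A v`, a quartic in `v` with leading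
  coefficient `12` (`H78.Tw.height_root_le` with `d = 4`, `e = 0`).
  Parallelogram law: `h(P1 - P3) = 2 L + 2 L - L + O(1) = 3 L + O(1)`, so
  `|h(P1 + P3) - h(P1 - P3)| ≤ 2 L + O(1)`: `4 b 0 2 = 2 L + K`.
* `pair12`: `4 b 0 1 = K`.
* `sum23`: `h(P2 ± P3) ≥ L / 2 - C`, and the sum of both is `4 L + O(1)`, so
  `|h(P2 + P3) - h(P2 - P3)| ≤ 3 L + O(1)`: `4 b 1 2 = 3 L + K`.
`linInd_of_weighted` with the weights `d = ![3, 4, 5]` (row `0`: `5 * (1/2) = 5/2 < 3`; row `1`:
`5 * (3/4) = 15/4 < 4`; row `2`: `3/2 + 3 = 9/2 < 5`, times `L`, for `L` large against the constants),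
`h := hh N`, `H := parallelogram (dsc_PA_ne A)` at `N`.
(`hh (Q + P)`, `hh (Q - P)` for the transposed pairs: `add_comm`, `neg_sub`, `hh_neg`.)
-/

namespace H40.Sq

open WeierstrassCurve WeierstrassCurve.Affine H48.CN H79.Tw Height

theorem indep3 (A : ℚ) : ∃ H : ℝ, ∀ N t v w : ℚ, N ≠ 0 → t ≠ 0 → v ≠ 0 →
    PA A (1 + v ^ 2) = N * t ^ 2 → w ^ 2 = QA A v → H < logHeight₁ v →
    ∃ P : Fin 3 → (TG (-A) (A - 3) 1 N).Point, LinearIndependent ℤ P := by
  obtain ⟨C0, hC0⟩ := parallelogram (dsc_PA_ne A)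
  obtain ⟨C1, hC1⟩ := ht_P1
  obtain ⟨C2, hC2⟩ := ht_P2
  obtain ⟨C3, hC3⟩ := ht_P3 A
  obtain ⟨C4, hC4⟩ := pair12 A
  obtain ⟨C5, H5, hC5⟩ := sum23 A
  -- the roots of the quartic
  obtain ⟨H6, hH6⟩ : ∃ H6 : ℝ, ∀ v : ℚ, 12 * v ^ 4 + (24 - 8 * A) * v ^ 2 - 4 * A = 0 →
      logHeight₁ v ≤ H6 := by
    set P : Polynomial ℚ := Polynomial.C 12 * Polynomial.X ^ 4 +
      Polynomial.C (24 - 8 * A) * Polynomial.X ^ 2 - Polynomial.C (4 * A) with hP
    have hP0 : P ≠ 0 := by
      intro h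
      have h1 := congrArg (fun q : Polynomial ℚ => q.coeff 4) h
      simp only [hP, Polynomial.coeff_sub, Polynomial.coeff_add, Polynomial.coeff_C_mul,
        Polynomial.coeff_X_pow, Polynomial.coeff_zero] at h1
      norm_num [Polynomial.coeff_C] at h1
    refine ⟨∑ r ∈ P.roots.toFinset, logHeight₁ r, fun v hv => ?_⟩
    refine Finset.single_le_sum (f := fun r : ℚ => logHeight₁ r)
      (fun r _ => zero_le_logHeight₁ r) ?_
    rw [Multiset.mem_toFinset, Polynomial.mem_roots hP0, Polynomial.IsRoot, hP]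
    simp only [Polynomial.eval_sub, Polynomial.eval_add, Polynomial.eval_mul, Polynomial.eval_C,
      Polynomial.eval_pow, Polynomial.eval_X]
    exact hv
  set K : ℝ := |C0| + |C1| + |C2| + |C3| + |C4| + |C5| with hK
  refine ⟨max (max H5 H6) (1000 * K + 1000), ?_⟩
  intro N t v w hN ht hv hD hw hH
  have hH5 : H5 < logHeight₁ v := lt_of_le_of_lt ((le_max_left _ _).trans (le_max_left _ _)) hH
  have hH6' : H6 < logHeight₁ v := lt_of_le_of_lt ((le_max_right _ _).trans (le_max_left _ _)) hH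
  have hHK : 1000 * K + 1000 < logHeight₁ v := lt_of_le_of_lt (le_max_right _ _) hH
  have e1 := e1_of hD
  have e2 := e2_of hv hD
  have e3 := e3_of hw hD
  have hw' : (-w) ^ 2 = QA A v := by rw [neg_sq]; exact hw
  have e3' := e3_of hw' hD
  set P1 := mk (dsc_PA_ne A) hN (1 + v ^ 2) t e1 with hP1
  set P2 := mk (dsc_PA_ne A) hN (-1 / v ^ 2) (t / v ^ 3) e2 with hP2
  set P3 := mk (dsc_PA_ne A) hN (xx A v w) t e3 with hP3
  have hv0 : 0 ≤ logHeight₁ v := zero_le_logHeight₁ v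
  set L := 2 * logHeight₁ v with hL
  have k1 : |hh N P1 - L| ≤ C1 := by
    rw [hP1, hh_mk]
    exact hC1 v
  have k2 : |hh N P2 - L| ≤ C2 := by
    rw [hP2, hh_mk]
    exact hC2 v hv
  have k3 : |hh N P3 - L| ≤ C3 := by
    rw [hP3, hh_mk]
    exact hC3 v w hw
  have k12 : |hh N (P1 + P2) - hh N (P1 - P2)| ≤ C4 := hC4 N t v hN hv hD e1 e2
  have hne : (1 + v ^ 2 : ℚ) ≠ xx A v w := by
    intro h
    refine absurd (hH6 v ?_) (not_le.2 hH6')
    have h1 : w = 3 * (1 + v ^ 2) - A := by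
      unfold xx at h
      linear_combination (-2 : ℚ) * h
    unfold QA at hw
    rw [h1] at hw
    linear_combination hw
  have k13a : |hh N (P1 + P3) - L| ≤ C3 := by
    rw [hP1, hP3, hh_add_of_ne _ _ hne]
    have h1 : N * ((t - t) / ((1 + v ^ 2) - xx A v w)) ^ 2 - -A - (1 + v ^ 2) - xx A v w =
        xx A v (-w) := by
      rw [sub_self, zero_div]
      unfold xx
      ring
    rw [h1]
    exact hC3 v (-w) hw'
  have k13b := hC0 N hN P1 P3
  obtain ⟨k23a, k23b⟩ := hC5 N t v w hN ht hv hD hw e2 e3 hH5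
  have k23c := hC0 N hN P2 P3
  have a0 := le_abs_self C0
  have a1 := le_abs_self C1
  have a2 := le_abs_self C2
  have a3 := le_abs_self C3
  have a4 := le_abs_self C4
  have a5 := le_abs_self C5
  have b0 := abs_nonneg C0
  have b1 := abs_nonneg C1
  have b2 := abs_nonneg C2
  have b3 := abs_nonneg C3
  have b4 := abs_nonneg C4
  have b5 := abs_nonneg C5
  have hK0 : 0 ≤ K := by positivity
  have k13 : |hh N (P1 + P3) - hh N (P1 - P3)| ≤ 2 * L + 12 * K := by
    rw [abs_le] at k1 k3 k13a k13b ⊢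
    constructor <;> linarith [k1.1, k1.2, k3.1, k3.2, k13a.1, k13a.2, k13b.1, k13b.2]
  have k23 : |hh N (P2 + P3) - hh N (P2 - P3)| ≤ 3 * L + 12 * K := by
    have k23a' : L / 2 - C5 ≤ hh N (P2 + P3) := by
      have : L / 2 = logHeight₁ v := by rw [hL]; ring
      rw [this]
      exact k23a
    have k23b' : L / 2 - C5 ≤ hh N (P2 - P3) := by
      have : L / 2 = logHeight₁ v := by rw [hL]; ring
      rw [this]
      exact k23b
    rw [abs_le] at k2 k3 k23c ⊢
    constructor <;> linarith [k2.1, k2.2, k3.1, k3.2, k23c.1, k23c.2]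
  refine ⟨![P1, P2, P3], linInd_of_weighted (hh N) C0 (hC0 N hN) ![P1, P2, P3] ![3, 4, 5] ?_
    !![0, K, (2 * L + 12 * K) / 4; K, 0, (3 * L + 12 * K) / 4;
      (2 * L + 12 * K) / 4, (3 * L + 12 * K) / 4, 0] ?_ ?_⟩
  · intro i
    fin_cases i <;> simp
  · intro i j hij
    have hs : ∀ P Q : (TG (-A) (A - 3) 1 N).Point, |hh N (Q + P) - hh N (Q - P)| =
        |hh N (P + Q) - hh N (P - Q)| := by
      intro P Q
      rw [add_comm Q P, ← neg_sub P Q, hh_neg]
    fin_cases i <;> fin_cases j <;> first | exact absurd rfl hij | skip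
    · simp; linarith
    · simp; linarith
    · simp only [Fin.mk_one, Fin.zero_eta, Matrix.cons_val_one, Matrix.cons_val_zero,
        Matrix.of_apply, Matrix.cons_val]
      rw [hs]; linarith
    · simp; linarith
    · simp only [Fin.reduceFinMk, Fin.zero_eta, Matrix.cons_val_zero,
        Matrix.of_apply, Matrix.cons_val]
      rw [hs]; linarith
    · simp only [Fin.reduceFinMk, Fin.mk_one, Matrix.cons_val_one,
        Matrix.of_apply, Matrix.cons_val]
      rw [hs]; linarith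
  · rw [abs_le] at k1 k2 k3
    intro i
    rw [Finset.sum_erase_eq_sub (Finset.mem_univ i), Fin.sum_univ_three]
    fin_cases i
    · simp; linarith [k1.1, k1.2]
    · simp; linarith [k2.1, k2.2]
    · simp; linarith [k3.1, k3.2]

end H40.Sq
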