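import Pool.Agent.helper40.Sq.Par
import Pool.Agent.helper40.Sq.HPts

set_option autoImplicit false

/-!
# SQ-P12: the pairing of the first two points is bounded

`P1 = mk (1 + v^2) t`, `P2 = mk (-1/v^2) (t/v^3)` on the twist by `N` of `y^2 = PA A x`,
`N t^2 = PA A (1 + v^2)`.
PROOF. The abscissae are different (`1 + v^2 > 0 > -1/v^2`), so by `hh_add_of_ne`, `hh_sub_of_ne`
`hh (P1 ± P2) = h (N ((t ∓ t/v^3) / (1 + v^2 + 1/v^2))^2 + A - (1 + v^2) + 1/v^2)`, and (replace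
`N t^2` by `PA A (1 + v^2)`) this number is `R (±v)` with
`R v = (1 + A v^2 - 2 v^3) / (v^2 - v + 1)^2` (checked by computer; `v^2 ∓ v + 1 > 0`).
`H78.Tw.height_rat_le` with `d = 4`: `h (R (±v)) ≤ 4 h v + C`
(`h (-v) = h v`: `logHeight₁_neg`). The parallelogram law (`parallelogram (dsc_PA_ne A)`), `hh_mk`,
`ht_P1`, `ht_P2` give `hh (P1 + P2) + hh (P1 - P2) ≥ 8 h v - C'`. So both are `4 h v + O(1)`.
(If it is convenient use `v` and `-v` in `height_rat_le` as two different rational functions.)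
-/

namespace H40.Sq

open WeierstrassCurve WeierstrassCurve.Affine H48.CN H79.Tw Height

theorem P12_pos (v : ℚ) : 0 < v ^ 2 - v + 1 := by nlinarith [sq_nonneg (v - 1 / 2)]

theorem P12_pos' (v : ℚ) : 0 < v ^ 2 + v + 1 := by nlinarith [sq_nonneg (v + 1 / 2)]

theorem P12_add {A N t v : ℚ} (hv : v ≠ 0) (hD : PA A (1 + v ^ 2) = N * t ^ 2) :
    N * ((t - t / v ^ 3) / (1 + v ^ 2 - -1 / v ^ 2)) ^ 2 - -A - (1 + v ^ 2) - -1 / v ^ 2 =
      (1 + A * v ^ 2 - 2 * v ^ 3) / (v ^ 2 - v + 1) ^ 2 := by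
  have h1 := (P12_pos v).ne'
  have h2 := (P12_pos' v).ne'
  have h3 : (1 : ℚ) + v ^ 2 - -1 / v ^ 2 = (v ^ 2 - v + 1) * (v ^ 2 + v + 1) / v ^ 2 := by
    field_simp
    ring
  have h4 : (t - t / v ^ 3) / (1 + v ^ 2 - -1 / v ^ 2) = t * ((v - 1) / (v * (v ^ 2 - v + 1))) := by
    rw [h3]
    generalize hd : v ^ 2 - v + 1 = d at h1 ⊢
    generalize he : v ^ 2 + v + 1 = e at h2 ⊢
    field_simp
    rw [← he]
    ring
  have h5 : N * ((t - t / v ^ 3) / (1 + v ^ 2 - -1 / v ^ 2)) ^ 2 =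
      (N * t ^ 2) * ((v - 1) / (v * (v ^ 2 - v + 1))) ^ 2 := by
    rw [h4]
    ring
  rw [h5, ← hD, PA]
  generalize hd : v ^ 2 - v + 1 = d at h1 ⊢
  field_simp
  rw [← hd]
  ring

theorem P12_sub {A N t v : ℚ} (hv : v ≠ 0) (hD : PA A (1 + v ^ 2) = N * t ^ 2) :
    N * ((t + t / v ^ 3) / (1 + v ^ 2 - -1 / v ^ 2)) ^ 2 - -A - (1 + v ^ 2) - -1 / v ^ 2 =
      (1 + A * v ^ 2 + 2 * v ^ 3) / (v ^ 2 + v + 1) ^ 2 := by
  have h1 := (P12_pos v).ne'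
  have h2 := (P12_pos' v).ne'
  have h3 : (1 : ℚ) + v ^ 2 - -1 / v ^ 2 = (v ^ 2 - v + 1) * (v ^ 2 + v + 1) / v ^ 2 := by
    field_simp
    ring
  have h4 : (t + t / v ^ 3) / (1 + v ^ 2 - -1 / v ^ 2) = t * ((v + 1) / (v * (v ^ 2 + v + 1))) := by
    rw [h3]
    generalize hd : v ^ 2 - v + 1 = d at h1 ⊢
    generalize he : v ^ 2 + v + 1 = e at h2 ⊢
    field_simp
    rw [← hd]
    ring
  have h5 : N * ((t + t / v ^ 3) / (1 + v ^ 2 - -1 / v ^ 2)) ^ 2 =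
      (N * t ^ 2) * ((v + 1) / (v * (v ^ 2 + v + 1))) ^ 2 := by
    rw [h4]
    ring
  rw [h5, ← hD, PA]
  generalize he : v ^ 2 + v + 1 = e at h2 ⊢
  field_simp
  rw [← he]
  ring

theorem pair12 (A : ℚ) : ∃ C : ℝ, ∀ (N t v : ℚ) (hN : N ≠ 0) (_ : v ≠ 0)
    (_ : PA A (1 + v ^ 2) = N * t ^ 2)
    (e1 : N * t ^ 2 = (1 + v ^ 2) ^ 3 + -A * (1 + v ^ 2) ^ 2 + (A - 3) * (1 + v ^ 2) + 1)
    (e2 : N * (t / v ^ 3) ^ 2 =
      (-1 / v ^ 2) ^ 3 + -A * (-1 / v ^ 2) ^ 2 + (A - 3) * (-1 / v ^ 2) + 1),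
    |hh N (mk (dsc_PA_ne A) hN (1 + v ^ 2) t e1 + mk (dsc_PA_ne A) hN (-1 / v ^ 2) (t / v ^ 3) e2) -
      hh N (mk (dsc_PA_ne A) hN (1 + v ^ 2) t e1 -
        mk (dsc_PA_ne A) hN (-1 / v ^ 2) (t / v ^ 3) e2)| ≤ C := by
  obtain ⟨C0, hC0⟩ := parallelogram (dsc_PA_ne A)
  obtain ⟨C1, hC1⟩ := ht_P1
  obtain ⟨C2, hC2⟩ := ht_P2
  obtain ⟨C3, hC3⟩ := H78.Tw.height_rat_le
    (1 + Polynomial.C A * Polynomial.X ^ 2 - Polynomial.C 2 * Polynomial.X ^ 3)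
    ((Polynomial.X ^ 2 - Polynomial.X + 1) ^ 2) 4 (by compute_degree!) (by compute_degree!)
  obtain ⟨C4, hC4⟩ := H78.Tw.height_rat_le
    (1 + Polynomial.C A * Polynomial.X ^ 2 + Polynomial.C 2 * Polynomial.X ^ 3)
    ((Polynomial.X ^ 2 + Polynomial.X + 1) ^ 2) 4 (by compute_degree!) (by compute_degree!)
  refine ⟨|C0| + 2 * |C1| + 2 * |C2| + 2 * |C3| + 2 * |C4|, ?_⟩
  intro N t v hN hv hD e1 e2
  have hne : (1 : ℚ) + v ^ 2 ≠ -1 / v ^ 2 := by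
    have h1 : 0 < v ^ 2 := by positivity
    have h2 : -1 / v ^ 2 < 0 := div_neg_of_neg_of_pos (by norm_num) h1
    intro h
    linarith
  have a1 := hh_add_of_ne (hE := dsc_PA_ne A) (hN := hN) e1 e2 hne
  have a2 := hh_sub_of_ne (hE := dsc_PA_ne A) (hN := hN) e1 e2 hne
  rw [P12_add hv hD] at a1
  rw [P12_sub hv hD] at a2
  have a3 := hC3 v (by
    simp only [Polynomial.eval_pow, Polynomial.eval_add, Polynomial.eval_sub, Polynomial.eval_X,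
      Polynomial.eval_one]
    exact pow_ne_zero 2 (P12_pos v).ne')
  have a4 := hC4 v (by
    simp only [Polynomial.eval_pow, Polynomial.eval_add, Polynomial.eval_X,
      Polynomial.eval_one]
    exact pow_ne_zero 2 (P12_pos' v).ne')
  simp only [Polynomial.eval_pow, Polynomial.eval_add, Polynomial.eval_sub, Polynomial.eval_X,
    Polynomial.eval_one, Polynomial.eval_mul, Polynomial.eval_C] at a3 a4
  rw [← a1] at a3
  rw [← a2] at a4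
  have a5 := hC0 N hN (mk (dsc_PA_ne A) hN (1 + v ^ 2) t e1)
    (mk (dsc_PA_ne A) hN (-1 / v ^ 2) (t / v ^ 3) e2)
  rw [hh_mk, hh_mk] at a5
  have a6 := hC1 v
  have a7 := hC2 v hv
  have b1 := le_abs_self C0
  have b2 := le_abs_self C1
  have b3 := le_abs_self C2
  have b4 := le_abs_self C3
  have b5 := le_abs_self C4
  have b6 := abs_nonneg C3
  have b7 := abs_nonneg C4
  rw [abs_le] at a5 a6 a7 ⊢
  push_cast at a3 a4
  constructor <;> linarith [a5.1, a5.2, a6.1, a6.2, a7.1, a7.2]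

end H40.Sq
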